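import Mathlib

/-!
A discrete Poincaré–Miranda lemma on a grid, proved by a parity count (cup product of
coboundaries with values in `ZMod 2`).
-/

namespace W68deb0

open Finset

variable {ι : Type*} [DecidableEq ι]

/-- Move one step in direction `a`. -/
def step (z : ι → ℕ) (a : ι) : ι → ℕ := Function.update z a (z a + 1)

/-- The cup product of the coboundaries of `s i`, `i ∈ l`, evaluated on the cube at `z` spanned by
the directions in `S`. -/
def W (s : ι → (ι → ℕ) → ZMod 2) : List ι → Finset ι → (ι → ℕ) → ZMod 2
  | [], _, _ => 1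
  | i :: l, S, z => ∑ a ∈ S, (s i z + s i (step z a)) * W s l (S.erase a) (step z a)

lemma W_nil (s : ι → (ι → ℕ) → ZMod 2) (S : Finset ι) (z : ι → ℕ) : W s [] S z = 1 := rfl

lemma W_cons (s : ι → (ι → ℕ) → ZMod 2) (i : ι) (l : List ι) (S : Finset ι) (z : ι → ℕ) :
    W s (i :: l) S z = ∑ a ∈ S, (s i z + s i (step z a)) * W s l (S.erase a) (step z a) := rfl

lemma z2_add_self (x : ZMod 2) : x + x = 0 := CharTwo.add_self_eq_zero x

/-- A symmetric off-diagonal double sum vanishes mod 2. -/
lemma sum_symm_zero (S : Finset ι) (F : ι → ι → ZMod 2) (hF : ∀ a b, F a b = F b a) :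
    ∑ a ∈ S, ∑ b ∈ S.erase a, F a b = 0 := by
  induction S using Finset.induction_on with
  | empty => simp
  | insert c S hc ih =>
    rw [Finset.sum_insert hc]
    have h1 : (insert c S).erase c = S := Finset.erase_insert hc
    rw [h1]
    have h2 : ∀ a ∈ S, ∑ b ∈ (insert c S).erase a, F a b = F a c + ∑ b ∈ S.erase a, F a b := by
      intro a ha
      have hac : a ≠ c := fun h => hc (h ▸ ha)
      rw [Finset.erase_insert_of_ne (Ne.symm hac)]
      rw [Finset.sum_insert]
      intro h
      exact hc (Finset.mem_of_mem_erase h)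
    rw [Finset.sum_congr rfl h2, Finset.sum_add_distrib, ih, add_zero]
    have h3 : ∑ a ∈ S, F a c = ∑ b ∈ S, F c b := Finset.sum_congr rfl (fun a _ => hF a c)
    rw [h3]
    exact z2_add_self _

/-- Interchange of an off-diagonal double sum. -/
lemma sum_swap (S : Finset ι) (F : ι → ι → ZMod 2) :
    ∑ a ∈ S, ∑ b ∈ S.erase a, F a b = ∑ b ∈ S, ∑ a ∈ S.erase b, F a b := by
  refine Finset.sum_comm' ?_
  intro x y
  simp only [Finset.mem_erase]
  constructor
  · rintro ⟨hx, hy, hy'⟩
    exact ⟨⟨Ne.symm hy, hx⟩, hy'⟩
  · rintro ⟨⟨h1, h2⟩, h3⟩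
    exact ⟨h2, Ne.symm h1, h3⟩

lemma step_comm (z : ι → ℕ) (a b : ι) (hab : a ≠ b) : step (step z a) b = step (step z b) a := by
  unfold step
  rw [Function.update_of_ne (Ne.symm hab), Function.update_of_ne hab]
  exact Function.update_comm hab _ _ _ 

lemma erase_comm' (S : Finset ι) (a b : ι) : (S.erase a).erase b = (S.erase b).erase a :=
  Finset.erase_right_comm

/-- The cup product of coboundaries is a cocycle. -/
lemma closed (s : ι → (ι → ℕ) → ZMod 2) (l : List ι) : ∀ (S : Finset ι) (z : ι → ℕ),
    ∑ a ∈ S, W s l (S.erase a) (step z a) = ∑ a ∈ S, W s l (S.erase a) z := by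
  induction l with
  | nil => intro S z; simp [W_nil]
  | cons i l ih =>
    intro S z
    -- left side
    have hL : ∑ a ∈ S, W s (i :: l) (S.erase a) (step z a)
        = ∑ a ∈ S, s i (step z a) * ∑ b ∈ S.erase a, W s l ((S.erase a).erase b) (step z a) := by
      have e1 : ∀ a ∈ S, W s (i :: l) (S.erase a) (step z a)
          = s i (step z a) * ∑ b ∈ S.erase a, W s l ((S.erase a).erase b) (step z a)
            + ∑ b ∈ S.erase a, s i (step (step z a) b) *
              W s l ((S.erase a).erase b) (step (step z a) b) := by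
        intro a _
        rw [W_cons, ← ih (S.erase a) (step z a), Finset.mul_sum, ← Finset.sum_add_distrib]
        refine Finset.sum_congr rfl (fun b _ => ?_)
        ring
      rw [Finset.sum_congr rfl e1, Finset.sum_add_distrib]
      have e2 : ∑ a ∈ S, ∑ b ∈ S.erase a, s i (step (step z a) b) *
              W s l ((S.erase a).erase b) (step (step z a) b) = 0 := by
        have := sum_symm_zero S (fun a b => if a = b then 0 else s i (step (step z a) b) *
              W s l ((S.erase a).erase b) (step (step z a) b)) (by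
            intro a b
            by_cases hab : a = b
            · simp [hab]
            · have hba : b ≠ a := Ne.symm hab
              simp only [hab, hba, if_false]
              rw [step_comm z a b hab, erase_comm' S a b])
        rw [← this]
        refine Finset.sum_congr rfl (fun a _ => Finset.sum_congr rfl (fun b hb => ?_))
        have : a ≠ b := Ne.symm (Finset.ne_of_mem_erase hb)
        simp [this]
      rw [e2, add_zero]
    have hR : ∑ a ∈ S, W s (i :: l) (S.erase a) z
        = ∑ a ∈ S, s i (step z a) * ∑ b ∈ S.erase a, W s l ((S.erase a).erase b) (step z a) := by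
      have e1 : ∀ a ∈ S, W s (i :: l) (S.erase a) z
          = s i z * ∑ b ∈ S.erase a, W s l ((S.erase a).erase b) z
            + ∑ b ∈ S.erase a, s i (step z b) *
              W s l ((S.erase a).erase b) (step z b) := by
        intro a _
        rw [W_cons, ← ih (S.erase a) z, Finset.mul_sum, ← Finset.sum_add_distrib]
        refine Finset.sum_congr rfl (fun b _ => ?_)
        ring
      rw [Finset.sum_congr rfl e1, Finset.sum_add_distrib, ← Finset.mul_sum]
      have e2 : ∑ a ∈ S, ∑ b ∈ S.erase a, W s l ((S.erase a).erase b) z = 0 :=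
        sum_symm_zero S (fun a b => W s l ((S.erase a).erase b) z) (by
          intro a b
          rw [erase_comm' S a b])
      rw [e2, mul_zero, zero_add, sum_swap]
      refine Finset.sum_congr rfl (fun a _ => ?_)
      rw [Finset.mul_sum]
      refine Finset.sum_congr rfl (fun b _ => ?_)
      rw [erase_comm' S a b]
    rw [hL, hR]

/-- Local Stokes formula. -/
lemma stokes (s : ι → (ι → ℕ) → ZMod 2) (i : ι) (l : List ι) (S : Finset ι) (z : ι → ℕ) :
    W s (i :: l) S z = ∑ a ∈ S, (s i (step z a) * W s l (S.erase a) (step z a)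
      + s i z * W s l (S.erase a) z) := by
  rw [Finset.sum_add_distrib, ← Finset.mul_sum, ← closed s l S z, Finset.mul_sum,
    ← Finset.sum_add_distrib, W_cons]
  refine Finset.sum_congr rfl (fun a _ => ?_)
  ring

/-- If `s a` is constant on the slice through `z` and the direction `a` is not used, the product
vanishes. -/
lemma zero_lemma (s : ι → (ι → ℕ) → ZMod 2) (a : ι) (t : ℕ) (c : ZMod 2)
    (hs : ∀ y : ι → ℕ, y a = t → s a y = c) (l : List ι) :
    ∀ (T : Finset ι) (z : ι → ℕ), a ∈ l → a ∉ T → z a = t → W s l T z = 0 := by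
  induction l with
  | nil => intro T z h; simp at h
  | cons i l ih =>
    intro T z ha hT hz
    rw [W_cons]
    refine Finset.sum_eq_zero (fun b hb => ?_)
    have hba : a ≠ b := fun h => hT (h ▸ hb)
    have hstep : step z b a = t := by
      unfold step
      rw [Function.update_of_ne hba, hz]
    by_cases hia : i = a
    · subst hia
      rw [hs z hz, hs _ hstep, z2_add_self, zero_mul]
    · have ha' : a ∈ l := by
        rcases List.mem_cons.1 ha with h | h
        · exact absurd h.symm hia
        · exact h
      rw [ih (T.erase b) (step z b) ha' (fun h => hT (Finset.mem_of_mem_erase h)) hstep, mul_zero]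

variable [Fintype ι]

/-- The box `[0,N)^S × {N}^{Sᶜ}`. -/
def Box (N : ℕ) (S : Finset ι) : Finset (ι → ℕ) :=
  Fintype.piFinset (fun a => if a ∈ S then Finset.range N else {N})

lemma mem_Box (N : ℕ) (S : Finset ι) (z : ι → ℕ) :
    z ∈ Box N S ↔ ∀ a, (a ∈ S → z a < N) ∧ (a ∉ S → z a = N) := by
  unfold Box
  rw [Fintype.mem_piFinset]
  refine forall_congr' (fun a => ?_)
  by_cases h : a ∈ S <;> simp [h]

lemma box_sum (N : ℕ) (S : Finset ι) (a : ι) (ha : a ∈ S) (H : (ι → ℕ) → ZMod 2) :
    ∑ z ∈ Box N S, H z = ∑ z ∈ Box N (S.erase a), ∑ t ∈ Finset.range N,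
      H (Function.update z a t) := by
  rw [← Finset.sum_product' (f := fun z t => H (Function.update z a t))]
  refine Finset.sum_nbij' (fun z => (Function.update z a N, z a))
    (fun p => Function.update p.1 a p.2) ?_ ?_ ?_ ?_ ?_
  · intro z hz
    rw [mem_Box] at hz
    rw [Finset.mem_product, mem_Box, Finset.mem_range]
    refine ⟨fun b => ?_, (hz a).1 ha⟩
    by_cases hb : b = a
    · subst hb; simp
    · simp only [Finset.mem_erase, ne_eq, hb, not_false_eq_true, true_and]
      rw [Function.update_of_ne hb]
      exact hz b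
  · intro p hp
    rw [Finset.mem_product, mem_Box, Finset.mem_range] at hp
    rw [mem_Box]
    intro b
    by_cases hb : b = a
    · subst hb
      simp only [Function.update_self]
      exact ⟨fun _ => hp.2, fun h => absurd ha h⟩
    · rw [Function.update_of_ne hb]
      have := hp.1 b
      simp only [Finset.mem_erase, ne_eq, hb, not_false_eq_true, true_and] at this
      exact this
  · intro z _
    simp
  · intro p hp
    rw [Finset.mem_product, mem_Box] at hp
    have h1 : p.1 a = N := (hp.1 a).2 (by simp)
    ext1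
    · simp only [Function.update_idem]
      rw [← h1, Function.update_eq_self]
    · simp
  · intro z _
    simp

lemma telescope (N : ℕ) (g : ℕ → ZMod 2) :
    ∑ t ∈ Finset.range N, (g (t + 1) + g t) = g N + g 0 := by
  have h : ∀ x y : ZMod 2, x + y = x - y := fun x y => (CharTwo.sub_eq_add x y).symm
  simp only [h]
  exact Finset.sum_range_sub g N

theorem main_sum (N : ℕ) (s : ι → (ι → ℕ) → ZMod 2)
    (h0 : ∀ i (y : ι → ℕ), y i = 0 → s i y = 0) (h1 : ∀ i (y : ι → ℕ), y i = N → s i y = 1)
    (l : List ι) (hl : l.Nodup) : ∑ z ∈ Box N l.toFinset, W s l l.toFinset z = 1 := by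
  induction l with
  | nil =>
    have hb : Box N (∅ : Finset ι) = {fun _ => N} := by
      ext z
      rw [mem_Box, Finset.mem_singleton]
      constructor
      · intro h
        funext a
        exact (h a).2 (by simp)
      · rintro rfl a
        simp
    simp [W_nil, hb]
  | cons i l ih =>
    rw [List.nodup_cons] at hl
    have ih' := ih hl.2
    set S := (i :: l).toFinset with hS
    have hiS : i ∈ S := by simp [hS]
    have herase : S.erase i = l.toFinset := by
      rw [hS, List.toFinset_cons, Finset.erase_insert]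
      simpa using hl.1
    have e1 : ∑ z ∈ Box N S, W s (i :: l) S z
        = ∑ a ∈ S, ∑ z ∈ Box N S, (s i (step z a) * W s l (S.erase a) (step z a)
      + s i z * W s l (S.erase a) z) := by
      rw [Finset.sum_comm]
      refine Finset.sum_congr rfl (fun z _ => stokes s i l S z)
    rw [e1, ← Finset.add_sum_erase S _ hiS]
    have e2 : ∀ a ∈ S, ∑ z ∈ Box N S, (s i (step z a) * W s l (S.erase a) (step z a)
      + s i z * W s l (S.erase a) z) = ∑ z ∈ Box N (S.erase a),
        (s i (Function.update z a N) * W s l (S.erase a) (Function.update z a N)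
        + s i (Function.update z a 0) * W s l (S.erase a) (Function.update z a 0)) := by
      intro a ha
      rw [box_sum N S a ha]
      refine Finset.sum_congr rfl (fun z _ => ?_)
      have := telescope N (fun t => s i (Function.update z a t) *
        W s l (S.erase a) (Function.update z a t))
      rw [← this]
      refine Finset.sum_congr rfl (fun t _ => ?_)
      simp [step]
    have e3 : ∑ a ∈ S.erase i, ∑ z ∈ Box N S, (s i (step z a) * W s l (S.erase a) (step z a)
      + s i z * W s l (S.erase a) z) = 0 := by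
      refine Finset.sum_eq_zero (fun a ha => ?_)
      rw [Finset.mem_erase] at ha
      rw [e2 a ha.2]
      have hal : a ∈ l := by
        have := ha.2
        rw [hS, List.mem_toFinset, List.mem_cons] at this
        rcases this with h | h
        · exact absurd h ha.1
        · exact h
      refine Finset.sum_eq_zero (fun z _ => ?_)
      rw [zero_lemma s a N 1 (h1 a) l (S.erase a) (Function.update z a N) hal (by simp) (by simp),
        zero_lemma s a 0 0 (h0 a) l (S.erase a) (Function.update z a 0) hal (by simp) (by simp)]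
      simp
    rw [e3, add_zero, e2 i hiS, herase, ← ih']
    refine Finset.sum_congr rfl (fun z hz => ?_)
    rw [mem_Box] at hz
    have hzi : z i = N := (hz i).2 (by simpa using hl.1)
    rw [h1 i (Function.update z i N) (by simp), h0 i (Function.update z i 0) (by simp)]
    rw [← hzi, Function.update_eq_self]
    simp

lemma exists_edge (s : ι → (ι → ℕ) → ZMod 2) (l : List ι) : ∀ (S : Finset ι) (z : ι → ℕ),
    W s l S z ≠ 0 → ∀ i ∈ l, ∃ u w : ι → ℕ,
      (∀ j, z j ≤ u j ∧ u j ≤ z j + (if j ∈ S then 1 else 0)) ∧
      (∀ j, z j ≤ w j ∧ w j ≤ z j + (if j ∈ S then 1 else 0)) ∧ s i u = 0 ∧ s i w = 1 := by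
  induction l with
  | nil => intro S z _ i hi; simp at hi
  | cons i l ih =>
    intro S z hW i' hi'
    rw [W_cons] at hW
    obtain ⟨a, haS, ha⟩ := Finset.exists_ne_zero_of_sum_ne_zero hW
    have ha1 : s i z + s i (step z a) ≠ 0 := left_ne_zero_of_mul ha
    have ha2 : W s l (S.erase a) (step z a) ≠ 0 := right_ne_zero_of_mul ha
    rcases List.mem_cons.1 hi' with h | h
    · subst h
      have hzb : ∀ j, z j ≤ z j ∧ z j ≤ z j + (if j ∈ S then 1 else 0) := fun j =>
        ⟨le_refl _, Nat.le_add_right _ _⟩
      have hsb : ∀ j, z j ≤ step z a j ∧ step z a j ≤ z j + (if j ∈ S then 1 else 0) := by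
        intro j
        by_cases hj : j = a
        · subst hj
          simp [step, haS]
        · simp [step, Function.update_of_ne hj]
      have hcase : ∀ x y : ZMod 2, x + y ≠ 0 → (x = 0 ∧ y = 1) ∨ (y = 0 ∧ x = 1) := by decide
      rcases hcase _ _ ha1 with ⟨h1, h2⟩ | ⟨h1, h2⟩
      · exact ⟨z, step z a, hzb, hsb, h1, h2⟩
      · exact ⟨step z a, z, hsb, hzb, h1, h2⟩
    · obtain ⟨u, w, hu, hw, h1, h2⟩ := ih (S.erase a) (step z a) ha2 i' h
      have key : ∀ y : ι → ℕ, (∀ j, step z a j ≤ y j ∧
          y j ≤ step z a j + (if j ∈ S.erase a then 1 else 0)) →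
          ∀ j, z j ≤ y j ∧ y j ≤ z j + (if j ∈ S then 1 else 0) := by
        intro y hy j
        have := hy j
        by_cases hj : j = a
        · subst hj
          simp only [step, Function.update_self, Finset.mem_erase, ne_eq, not_true_eq_false,
            false_and, if_false, add_zero] at this
          simp only [haS, if_true]
          omega
        · simpa [step, Function.update_of_ne hj, Finset.mem_erase, hj] using this
      exact ⟨u, w, key u hu, key w hw, h1, h2⟩

/-- **Discrete Poincaré–Miranda.** -/
theorem cube_lemma (N : ℕ) (s : ι → (ι → ℕ) → ZMod 2)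
    (h0 : ∀ i (y : ι → ℕ), y i = 0 → s i y = 0) (h1 : ∀ i (y : ι → ℕ), y i = N → s i y = 1) :
    ∃ z : ι → ℕ, (∀ j, z j < N) ∧ ∀ i, ∃ u w : ι → ℕ,
      (∀ j, z j ≤ u j ∧ u j ≤ z j + 1) ∧ (∀ j, z j ≤ w j ∧ w j ≤ z j + 1) ∧
      s i u = 0 ∧ s i w = 1 := by
  have hsum := main_sum N s h0 h1 (Finset.univ : Finset ι).toList (Finset.nodup_toList _)
  rw [Finset.toList_toFinset] at hsum
  have hne : ∑ z ∈ Box N (Finset.univ : Finset ι), W s (Finset.univ : Finset ι).toList
      Finset.univ z ≠ 0 := by
    rw [hsum]; decide
  obtain ⟨z, hz, hW⟩ := Finset.exists_ne_zero_of_sum_ne_zero hne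
  rw [mem_Box] at hz
  refine ⟨z, fun j => (hz j).1 (Finset.mem_univ _), fun i => ?_⟩
  obtain ⟨u, w, hu, hw, h1, h2⟩ := exists_edge s _ _ z hW i (by simp)
  simp only [Finset.mem_univ, if_true] at hu hw
  exact ⟨u, w, hu, hw, h1, h2⟩

end W68deb0
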