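import Mathlib
import Pool.Agent.W_68deb0.Cube

/-!
Averages over large boxes of a fine lattice.
-/

namespace W68deb0

open Finset

section

variable {n : ℕ} {Y : Type*} [NormedAddCommGroup Y] [NormedSpace ℝ Y]

lemma box_sum' (N : ℕ) (S : Finset (Fin n)) (a : Fin n) (ha : a ∈ S) (H : (Fin n → ℕ) → Y) :
    ∑ z ∈ Box N S, H z = ∑ z ∈ Box N (S.erase a), ∑ t ∈ Finset.range N,
      H (Function.update z a t) := by
  rw [← Finset.sum_product' (f := fun z t => H (Function.update z a t))]
  refine Finset.sum_nbij' (fun z => (Function.update z a N, z a))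
    (fun p => Function.update p.1 a p.2) ?_ ?_ ?_ ?_ ?_
  · intro z hz
    rw [mem_Box] at hz
    rw [Finset.mem_product, mem_Box, Finset.mem_range]
    refine ⟨fun b => ?_, (hz a).1 ha⟩
    by_cases hb : b = a
    · subst hb; simp
    · simp only [Finset.mem_erase, ne_eq, hb, not_false_eq_true, true_and]
      rw [Function.update_of_ne hb]
      exact hz b
  · intro p hp
    rw [Finset.mem_product, mem_Box, Finset.mem_range] at hp
    rw [mem_Box]
    intro b
    by_cases hb : b = a
    · subst hb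
      simp only [Function.update_self]
      exact ⟨fun _ => hp.2, fun h => absurd ha h⟩
    · rw [Function.update_of_ne hb]
      have := hp.1 b
      simp only [Finset.mem_erase, ne_eq, hb, not_false_eq_true, true_and] at this
      exact this
  · intro z _
    simp
  · intro p hp
    rw [Finset.mem_product, mem_Box] at hp
    have h1 : p.1 a = N := (hp.1 a).2 (by simp)
    ext1
    · simp only [Function.update_idem]
      rw [← h1, Function.update_eq_self]
    · simp
  · intro z _
    simp

lemma card_Box (N : ℕ) (S : Finset (Fin n)) : #(Box N S) = N ^ #S := by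
  unfold Box
  rw [Fintype.card_piFinset]
  have : ∀ a : Fin n, #(if a ∈ S then Finset.range N else {N}) = if a ∈ S then N else 1 := by
    intro a; split_ifs <;> simp
  simp only [this]
  rw [Finset.prod_ite, Finset.prod_const, Finset.prod_const_one, mul_one]
  congr 2
  ext a; simp

/-- the grid point -/
def gp (d : ℝ) (z : Fin n → ℕ) : Fin n → ℝ := fun i => d * z i

/-- the sum over a box -/
noncomputable def SR (d : ℝ) (R : ℕ) (G : (Fin n → ℝ) → Y) (x : Fin n → ℝ) : Y :=
  ∑ z ∈ Box R (Finset.univ : Finset (Fin n)), G (x + gp d z)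

lemma SR_unit (d : ℝ) (R : ℕ) (G : (Fin n → ℝ) → Y) (S : ℝ) (hG : ∀ x, ‖G x‖ ≤ S)
    (x : Fin n → ℝ) (i : Fin n) :
    ‖SR d R G (x + Pi.single i d) - SR d R G x‖ ≤ 2 * S * (R : ℝ) ^ (n - 1) := by
  classical
  unfold SR
  rw [← Finset.sum_sub_distrib, box_sum' R _ i (Finset.mem_univ i)]
  have h1 : ∀ z ∈ Box R (Finset.univ.erase i), ∑ t ∈ Finset.range R,
      (G (x + Pi.single i d + gp d (Function.update z i t))
        - G (x + gp d (Function.update z i t)))
      = G (x + gp d (Function.update z i R)) - G (x + gp d (Function.update z i 0)) := by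
    intro z _
    have h2 : ∀ t : ℕ, x + Pi.single i d + gp d (Function.update z i t)
        = x + gp d (Function.update z i (t + 1)) := by
      intro t
      funext j
      by_cases hj : j = i
      · subst hj
        simp only [Pi.add_apply, Pi.single_eq_same, gp, Function.update_self]
        push_cast
        ring
      · simp [Pi.add_apply, Pi.single_eq_of_ne hj, gp, Function.update_of_ne hj]
    simp only [h2]
    exact Finset.sum_range_sub (fun t => G (x + gp d (Function.update z i t))) R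
  rw [Finset.sum_congr rfl h1]
  refine (norm_sum_le _ _).trans ?_
  have h3 : ∀ z ∈ Box R (Finset.univ.erase i),
      ‖G (x + gp d (Function.update z i R)) - G (x + gp d (Function.update z i 0))‖ ≤ 2 * S := by
    intro z _
    refine (norm_sub_le _ _).trans ?_
    linarith [hG (x + gp d (Function.update z i R)), hG (x + gp d (Function.update z i 0))]
  refine (Finset.sum_le_sum h3).trans (le_of_eq ?_)
  rw [Finset.sum_const, card_Box, Finset.card_erase_of_mem (Finset.mem_univ i),
    Finset.card_univ, Fintype.card_fin, nsmul_eq_mul]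
  push_cast
  ring

/-- moving along lattice vectors -/
lemma lattice_move (d K : ℝ) (Q : (Fin n → ℝ) → Y)
    (hQ : ∀ x i, ‖Q (x + Pi.single i d) - Q x‖ ≤ K) (w : Fin n → ℤ) (x : Fin n → ℝ) :
    ‖Q (x + fun i => d * w i) - Q x‖ ≤ K * ∑ i, |(w i : ℝ)| := by
  classical
  -- one coordinate, natural multiples
  have h1 : ∀ (i : Fin n) (m : ℕ) (x : Fin n → ℝ),
      ‖Q (x + Pi.single i (d * m)) - Q x‖ ≤ K * m := by
    intro i m
    induction m with
    | zero => intro x; simp
    | succ m ih =>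
      intro x
      have e : x + Pi.single i (d * ((m + 1 : ℕ) : ℝ))
          = (x + Pi.single i (d * m)) + Pi.single i d := by
        rw [add_assoc, ← Pi.single_add]
        congr 2
        push_cast
        ring
      rw [e]
      have h2 := hQ (x + Pi.single i (d * m)) i
      have h3 := ih x
      have h4 : Q (x + Pi.single i (d * m) + Pi.single i d) - Q x
          = (Q (x + Pi.single i (d * m) + Pi.single i d) - Q (x + Pi.single i (d * m)))
            + (Q (x + Pi.single i (d * m)) - Q x) := by abel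
      rw [h4]
      refine (norm_add_le _ _).trans ?_
      push_cast
      linarith
  have h2 : ∀ (i : Fin n) (m : ℤ) (x : Fin n → ℝ),
      ‖Q (x + Pi.single i (d * m)) - Q x‖ ≤ K * |(m : ℝ)| := by
    intro i m x
    obtain ⟨k, rfl | rfl⟩ := m.eq_nat_or_neg
    · simpa using h1 i k x
    · have h3 := h1 i k (x + Pi.single i (d * ((-(k : ℤ) : ℤ) : ℝ)))
      have e : x + Pi.single i (d * ((-(k : ℤ) : ℤ) : ℝ)) + Pi.single i (d * (k : ℝ)) = x := by
        rw [add_assoc, ← Pi.single_add]
        have : d * ((-(k : ℤ) : ℤ) : ℝ) + d * (k : ℝ) = 0 := by push_cast; ring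
        rw [this, Pi.single_zero, add_zero]
      rw [e, norm_sub_rev] at h3
      refine h3.trans (le_of_eq ?_)
      push_cast
      rw [abs_neg, Nat.abs_cast]
  have h3 : ∀ (s : Finset (Fin n)) (x : Fin n → ℝ),
      ‖Q (x + ∑ i ∈ s, Pi.single i (d * (w i : ℝ))) - Q x‖ ≤ K * ∑ i ∈ s, |(w i : ℝ)| := by
    intro s
    induction s using Finset.induction_on with
    | empty => intro x; simp
    | insert a s ha ih =>
      intro x
      rw [Finset.sum_insert ha, Finset.sum_insert ha]
      have e : x + (Pi.single a (d * (w a : ℝ)) + ∑ i ∈ s, Pi.single i (d * (w i : ℝ)))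
          = (x + ∑ i ∈ s, Pi.single i (d * (w i : ℝ))) + Pi.single a (d * (w a : ℝ)) := by abel
      rw [e]
      have h4 := h2 a (w a) (x + ∑ i ∈ s, Pi.single i (d * (w i : ℝ)))
      have h5 := ih x
      have h6 : Q (x + ∑ i ∈ s, Pi.single i (d * (w i : ℝ)) + Pi.single a (d * (w a : ℝ))) - Q x
          = (Q (x + ∑ i ∈ s, Pi.single i (d * (w i : ℝ)) + Pi.single a (d * (w a : ℝ)))
              - Q (x + ∑ i ∈ s, Pi.single i (d * (w i : ℝ))))
            + (Q (x + ∑ i ∈ s, Pi.single i (d * (w i : ℝ))) - Q x) := by abel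
      rw [h6]
      refine (norm_add_le _ _).trans ?_
      linarith
  have h4 := h3 Finset.univ x
  have e : ∑ i : Fin n, Pi.single i (d * (w i : ℝ)) = fun i => d * (w i : ℝ) :=
    Finset.univ_sum_single (fun i => d * (w i : ℝ))
  rwa [e] at h4

/-- the average -/
noncomputable def Av (d : ℝ) (R : ℕ) (p : (Fin n → ℝ) → Y) (x : Fin n → ℝ) : Y :=
  ((R : ℝ) ^ n)⁻¹ • SR d R p x

lemma Av_sub_le (d : ℝ) (R : ℕ) (hR : 0 < R) (p : (Fin n → ℝ) → Y) (v : Fin n → ℝ) (c : ℝ)
    (hc : ∀ y, ‖p (y + v) - p y‖ ≤ c) (x : Fin n → ℝ) :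
    ‖Av d R p (x + v) - Av d R p x‖ ≤ c := by
  unfold Av SR
  rw [← smul_sub, ← Finset.sum_sub_distrib, norm_smul]
  have hRn : (0 : ℝ) < (R : ℝ) ^ n := by positivity
  rw [norm_inv, norm_pow, Real.norm_natCast]
  have h1 : ∀ z ∈ Box R (Finset.univ : Finset (Fin n)),
      ‖p (x + v + gp d z) - p (x + gp d z)‖ ≤ c := by
    intro z _
    have : x + v + gp d z = (x + gp d z) + v := by abel
    rw [this]
    exact hc _
  have h2 : ‖∑ z ∈ Box R (Finset.univ : Finset (Fin n)), (p (x + v + gp d z) - p (x + gp d z))‖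
      ≤ (R : ℝ) ^ n * c := by
    refine (norm_sum_le _ _).trans ((Finset.sum_le_sum h1).trans (le_of_eq ?_))
    rw [Finset.sum_const, card_Box, Finset.card_univ, Fintype.card_fin, nsmul_eq_mul]
    push_cast
    ring
  rw [inv_mul_le_iff₀ hRn]
  exact h2

/-- the Foelner estimate: a small lattice step costs little -/
lemma Av_step (hn : 0 < n) (d : ℝ) (R M : ℕ) (hR : 0 < R) (hM : 0 < M) (p : (Fin n → ℝ) → Y)
    (w : Fin n → ℤ) (L S : ℝ)
    (hL : ∀ y, ‖p (y + (M : ℝ) • fun i => d * (w i : ℝ)) - p y‖ ≤ L)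
    (hS : ∀ y, ‖p (y + fun i => d * (w i : ℝ)) - p y‖ ≤ S)
    (hbig : 2 * S * M * (M * ∑ i, |(w i : ℝ)|) ≤ R) (x : Fin n → ℝ) :
    ‖Av d R p (x + fun i => d * (w i : ℝ)) - Av d R p x‖ ≤ (L + 1) / M := by
  have hS0 : 0 ≤ S := (norm_nonneg _).trans (hS 0)
  have hMR : (0 : ℝ) < M := by exact_mod_cast hM
  have hRR : (0 : ℝ) < R := by exact_mod_cast hR
  set ψ : (Fin n → ℝ) → Y := fun y => p (y + fun i => d * (w i : ℝ)) - p y with hψ
  set D : (Fin n → ℝ) → Y := fun y => Av d R p (y + fun i => d * (w i : ℝ)) - Av d R p y with hD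
  have hDψ : ∀ y, D y = ((R : ℝ) ^ n)⁻¹ • SR d R ψ y := by
    intro y
    simp only [hD, hψ, Av, SR]
    rw [← smul_sub, ← Finset.sum_sub_distrib]
    congr 1
    refine Finset.sum_congr rfl (fun z _ => ?_)
    congr 2
    abel
  -- shifts of D
  have hshift : ∀ j : ℕ, j < M → ‖D (x + (j : ℝ) • fun i => d * (w i : ℝ)) - D x‖ ≤ 1 / M := by
    intro j hj
    rw [hDψ, hDψ, ← smul_sub, norm_smul, norm_inv, norm_pow, Real.norm_natCast]
    have h1 := lattice_move d (2 * S * (R : ℝ) ^ (n - 1)) (SR d R ψ)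
      (fun x i => SR_unit d R ψ S hS x i) (fun i => (j : ℤ) * w i) x
    have e : (x + fun i => d * (((j : ℤ) * w i : ℤ) : ℝ))
        = x + (j : ℝ) • fun i => d * (w i : ℝ) := by
      congr 1
      funext i
      simp only [Pi.smul_apply, smul_eq_mul]
      push_cast
      ring
    rw [e] at h1
    have hRn : (0 : ℝ) < (R : ℝ) ^ n := by positivity
    rw [inv_mul_le_iff₀ hRn]
    refine h1.trans ?_
    have e2 : ∑ i, |(((j : ℤ) * w i : ℤ) : ℝ)| ≤ M * ∑ i, |(w i : ℝ)| := by
      rw [Finset.mul_sum]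
      refine Finset.sum_le_sum (fun i _ => ?_)
      push_cast
      rw [abs_mul, Nat.abs_cast]
      have : (j : ℝ) ≤ M := by exact_mod_cast hj.le
      exact mul_le_mul_of_nonneg_right this (abs_nonneg _)
    have e3 : (R : ℝ) ^ n = (R : ℝ) ^ (n - 1) * R := by
      rw [← pow_succ]
      congr 1
      omega
    calc 2 * S * (R : ℝ) ^ (n - 1) * ∑ i, |(((j : ℤ) * w i : ℤ) : ℝ)|
        ≤ 2 * S * (R : ℝ) ^ (n - 1) * (M * ∑ i, |(w i : ℝ)|) :=
          mul_le_mul_of_nonneg_left e2 (by positivity)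
      _ = (R : ℝ) ^ (n - 1) * (2 * S * M * (M * ∑ i, |(w i : ℝ)|)) * (1 / M) := by
          field_simp
      _ ≤ (R : ℝ) ^ (n - 1) * R * (1 / M) := by
          refine mul_le_mul_of_nonneg_right ?_ (by positivity)
          exact mul_le_mul_of_nonneg_left hbig (by positivity)
      _ = (R : ℝ) ^ n * (1 / M) := by rw [e3]
  -- telescoping
  have htel : ∑ j ∈ Finset.range M, D (x + (j : ℝ) • fun i => d * (w i : ℝ))
      = Av d R p (x + (M : ℝ) • fun i => d * (w i : ℝ)) - Av d R p x := by
    have h1 : ∀ j : ℕ, D (x + (j : ℝ) • fun i => d * (w i : ℝ))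
        = Av d R p (x + ((j + 1 : ℕ) : ℝ) • fun i => d * (w i : ℝ))
          - Av d R p (x + (j : ℝ) • fun i => d * (w i : ℝ)) := by
      intro j
      simp only [hD]
      congr 2
      push_cast
      rw [add_smul, one_smul, add_assoc]
    simp only [h1]
    rw [Finset.sum_range_sub (fun j : ℕ => Av d R p (x + (j : ℝ) • fun i => d * (w i : ℝ)))]
    simp
  have hsum : (M : ℝ) • D x = (∑ j ∈ Finset.range M, D (x + (j : ℝ) • fun i => d * (w i : ℝ)))
      - ∑ j ∈ Finset.range M, (D (x + (j : ℝ) • fun i => d * (w i : ℝ)) - D x) := by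
    rw [← Finset.sum_sub_distrib]
    simp only [sub_sub_cancel]
    rw [Finset.sum_const, Finset.card_range, ← Nat.cast_smul_eq_nsmul ℝ]
  have hfin : (M : ℝ) * ‖D x‖ ≤ L + 1 := by
    have h1 : ‖(M : ℝ) • D x‖ = (M : ℝ) * ‖D x‖ := by
      rw [norm_smul, Real.norm_natCast]
    rw [← h1, hsum, htel]
    refine (norm_sub_le _ _).trans ?_
    have h2 := Av_sub_le d R hR p ((M : ℝ) • fun i => d * (w i : ℝ)) L hL x
    have h3 : ‖∑ j ∈ Finset.range M, (D (x + (j : ℝ) • fun i => d * (w i : ℝ)) - D x)‖ ≤ 1 := by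
      refine (norm_sum_le _ _).trans ?_
      refine (Finset.sum_le_sum (fun j hj => hshift j (Finset.mem_range.1 hj))).trans
        (le_of_eq ?_)
      rw [Finset.sum_const, Finset.card_range, nsmul_eq_mul]
      field_simp
    linarith
  rw [le_div_iff₀ hMR]
  linarith

end

end W68deb0
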