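import Mathlib
import Pool.Agent.W_68deb0.Folner

/-!
The averaged map is Lipschitz for the norm given by the convex hull.
-/

namespace W68deb0

open Finset

section

variable {n : ℕ} {Y : Type*} [NormedAddCommGroup Y] [NormedSpace ℝ Y]

lemma steps_bound (Q : (Fin n → ℝ) → Y) (K : ℝ) {ι : Type*} (s : Finset ι)
    (v : ι → Fin n → ℝ) (N : ι → ℕ) (hQ : ∀ i x, ‖Q (x + v i) - Q x‖ ≤ K) :
    ∀ x, ‖Q (x + ∑ i ∈ s, (N i : ℝ) • v i) - Q x‖ ≤ K * ∑ i ∈ s, (N i : ℝ) := by
  classical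
  have h1 : ∀ (i : ι) (m : ℕ) (x : Fin n → ℝ), ‖Q (x + (m : ℝ) • v i) - Q x‖ ≤ K * m := by
    intro i m
    induction m with
    | zero => intro x; simp
    | succ m ih =>
      intro x
      have e : x + ((m + 1 : ℕ) : ℝ) • v i = (x + (m : ℝ) • v i) + v i := by
        push_cast
        rw [add_smul, one_smul, add_assoc]
      rw [e]
      have h2 := hQ i (x + (m : ℝ) • v i)
      have h3 := ih x
      have h4 : Q (x + (m : ℝ) • v i + v i) - Q x
          = (Q (x + (m : ℝ) • v i + v i) - Q (x + (m : ℝ) • v i))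
            + (Q (x + (m : ℝ) • v i) - Q x) := by abel
      rw [h4]
      refine (norm_add_le _ _).trans ?_
      push_cast
      linarith
  induction s using Finset.induction_on with
  | empty => intro x; simp
  | insert a s ha ih =>
    intro x
    rw [Finset.sum_insert ha, Finset.sum_insert ha]
    have e : x + ((N a : ℝ) • v a + ∑ i ∈ s, (N i : ℝ) • v i)
        = (x + ∑ i ∈ s, (N i : ℝ) • v i) + (N a : ℝ) • v a := by abel
    rw [e]
    have h4 := h1 a (N a) (x + ∑ i ∈ s, (N i : ℝ) • v i)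
    have h5 := ih x
    have h6 : Q (x + ∑ i ∈ s, (N i : ℝ) • v i + (N a : ℝ) • v a) - Q x
        = (Q (x + ∑ i ∈ s, (N i : ℝ) • v i + (N a : ℝ) • v a) - Q (x + ∑ i ∈ s, (N i : ℝ) • v i))
          + (Q (x + ∑ i ∈ s, (N i : ℝ) • v i) - Q x) := by abel
    rw [h6]
    refine (norm_add_le _ _).trans ?_
    linarith

theorem Av_convex (hn : 0 < n) (p : (Fin n → ℝ) → Y) (δ0 : ℝ) (hδ0 : 0 < δ0) (ω : ℝ)
    (hp : ∀ r : Fin n → ℝ, (∀ i, |r i| ≤ δ0) → ∀ y, ‖p (y + r) - p y‖ ≤ min ω 1)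
    (W : Set (Fin n → ℝ)) (b : ℝ) (hb : 0 ≤ b) (hW : ∀ w ∈ W, ∀ i, |w i| ≤ b) (L : ℝ)
    (hL0 : 0 ≤ L) (hL : ∀ w ∈ W, ∀ y, ‖p (y + w) - p y‖ ≤ L) :
    ∃ (d : ℝ) (R : ℕ), 0 < d ∧ 0 < R ∧ ∀ τ : ℝ, 0 ≤ τ → τ ≤ 1 → ∀ a ∈ convexHull ℝ W,
      ∀ x, ‖Av d R p (x + τ • a) - Av d R p x‖ ≤ (L + 2) * τ + ω := by
  set δ : ℝ := min (δ0 / 2) 1 with hδ
  have hδpos : 0 < δ := by positivity
  have hδ1 : δ ≤ δ0 / 2 := min_le_left _ _
  have hδ2 : δ ≤ 1 := min_le_right _ _
  obtain ⟨M0, hM0⟩ := exists_nat_ge (2 * (n + 1) * (b + δ) / δ0)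
  set M : ℕ := M0 + 1 with hM
  have hMpos : 0 < M := by omega
  have hMR : (0 : ℝ) < M := by exact_mod_cast hMpos
  have hMbig : (n + 1) * ((b + δ) / M) ≤ δ0 / 2 := by
    have h1 : (M0 : ℝ) ≤ M := by rw [hM]; push_cast; linarith
    rw [div_le_iff₀ hδ0] at hM0
    rw [← mul_div_assoc, div_le_iff₀ hMR]
    nlinarith
  set d : ℝ := δ / M with hd
  have hdpos : 0 < d := by positivity
  have hMd : (M : ℝ) * d = δ := by rw [hd]; field_simp
  obtain ⟨R0, hR0⟩ := exists_nat_ge (2 * M * (M * (n * ((b + δ) / δ))))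
  set R : ℕ := R0 + 1 with hR
  have hRpos : 0 < R := by omega
  refine ⟨d, R, hdpos, hRpos, ?_⟩
  -- integer approximations
  set wt : (Fin n → ℝ) → Fin n → ℤ := fun w i => ⌊w i / δ⌋ with hwt
  have happ : ∀ w : Fin n → ℝ, ∀ i, |w i - δ * (wt w i : ℝ)| ≤ δ := by
    intro w i
    simp only [hwt]
    have h1 := Int.floor_le (w i / δ)
    have h2 := Int.lt_floor_add_one (w i / δ)
    rw [le_div_iff₀ hδpos] at h1
    rw [div_lt_iff₀ hδpos] at h2
    rw [abs_le]
    constructor <;> nlinarith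
  have hsize : ∀ w ∈ W, ∀ i, δ * |(wt w i : ℝ)| ≤ b + δ := by
    intro w hw i
    have h1 := happ w i
    have h2 := hW w hw i
    have h3 : δ * |(wt w i : ℝ)| = |δ * (wt w i : ℝ)| := by
      rw [abs_mul, abs_of_pos hδpos]
    rw [h3]
    have h4 : δ * (wt w i : ℝ) = w i - (w i - δ * (wt w i : ℝ)) := by ring
    rw [h4]
    exact (abs_sub _ _).trans (add_le_add h2 h1)
  have hdsize : ∀ w ∈ W, ∀ i, |d * (wt w i : ℝ)| ≤ (b + δ) / M := by
    intro w hw i
    rw [abs_mul, abs_of_pos hdpos, hd, div_mul_eq_mul_div]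
    exact div_le_div_of_nonneg_right (hsize w hw i) hMR.le
  have hbM : (b + δ) / M ≤ δ0 := by
    have h1 : 0 ≤ (b + δ) / M := by positivity
    have h2 : (b + δ) / M ≤ (n + 1) * ((b + δ) / M) := by
      have : (0 : ℝ) ≤ n := Nat.cast_nonneg n
      nlinarith
    linarith
  have hstep : ∀ w ∈ W, ∀ x, ‖Av d R p (x + fun i => d * (wt w i : ℝ)) - Av d R p x‖
      ≤ (L + 2) / M := by
    intro w hw x
    have h := Av_step hn d R M hRpos hMpos p (wt w) (L + 1) 1 (by
        intro y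
        have e1 : y + (M : ℝ) • (fun i => d * (wt w i : ℝ))
            = (y + w) + fun i => -(w i - δ * (wt w i : ℝ)) := by
          funext i
          simp only [Pi.add_apply, Pi.smul_apply, smul_eq_mul]
          rw [← mul_assoc, hMd]
          ring
        rw [e1]
        have h2 := hp (fun i => -(w i - δ * (wt w i : ℝ))) (by
          intro i
          rw [abs_neg]
          exact (happ w i).trans (by linarith)) (y + w)
        have h3 := hL w hw y
        have h4 : p (y + w + fun i => -(w i - δ * (wt w i : ℝ))) - p y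
            = (p (y + w + fun i => -(w i - δ * (wt w i : ℝ))) - p (y + w))
              + (p (y + w) - p y) := by abel
        rw [h4]
        refine (norm_add_le _ _).trans ?_
        have := min_le_right ω 1
        linarith) (by
        intro y
        exact (hp _ (fun i => (hdsize w hw i).trans hbM) y).trans (min_le_right _ _)) (by
        have h5 : ∑ i, |(wt w i : ℝ)| ≤ n * ((b + δ) / δ) := by
          have h6 : ∀ i ∈ (Finset.univ : Finset (Fin n)), |(wt w i : ℝ)| ≤ (b + δ) / δ := by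
            intro i _
            rw [le_div_iff₀ hδpos]
            have := hsize w hw i
            linarith
          refine (Finset.sum_le_sum h6).trans (le_of_eq ?_)
          rw [Finset.sum_const, Finset.card_univ, Fintype.card_fin, nsmul_eq_mul]
        have h7 : (R0 : ℝ) ≤ R := by rw [hR]; push_cast; linarith
        calc 2 * 1 * (M : ℝ) * (M * ∑ i, |(wt w i : ℝ)|)
            ≤ 2 * 1 * (M : ℝ) * (M * (n * ((b + δ) / δ))) := by gcongr
          _ = 2 * M * (M * (n * ((b + δ) / δ))) := by ring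
          _ ≤ R := hR0.trans h7) x
    refine h.trans (le_of_eq ?_)
    ring
  intro τ hτ0 hτ1 a ha x
  obtain ⟨ι, hι, z, lam, hz, hind, hpos, hsum, hcomb⟩ := eq_pos_convex_span_of_mem_convexHull ha
  have hcard : (Fintype.card ι : ℝ) ≤ n + 1 := by
    have h1 := hind.card_le_finrank_succ
    have h2 : Module.finrank ℝ (vectorSpan ℝ (Set.range z)) ≤ n := by
      refine (Submodule.finrank_le _).trans ?_
      rw [Module.finrank_fin_fun]
    have h3 : Fintype.card ι ≤ n + 1 := by omega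
    exact_mod_cast h3
  have hzW : ∀ i, z i ∈ W := fun i => hz ⟨i, rfl⟩
  set N : ι → ℕ := fun i => ⌊τ * lam i * M⌋₊ with hN
  have hNle : ∀ i, (N i : ℝ) ≤ τ * lam i * M := fun i =>
    Nat.floor_le (by have := (hpos i).le; positivity)
  have hNgt : ∀ i, τ * lam i * M < N i + 1 := fun i => Nat.lt_floor_add_one _
  set v : ι → Fin n → ℝ := fun i j => d * (wt (z i) j : ℝ) with hv
  have hmove := steps_bound (Av d R p) ((L + 2) / M) (Finset.univ : Finset ι) v N
    (fun i x => hstep (z i) (hzW i) x) x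
  have hNsum : ∑ i, (N i : ℝ) ≤ τ * M := by
    calc ∑ i, (N i : ℝ) ≤ ∑ i, τ * lam i * M := Finset.sum_le_sum (fun i _ => hNle i)
      _ = τ * M * ∑ i, lam i := by
          rw [Finset.mul_sum]
          refine Finset.sum_congr rfl (fun i _ => ?_)
          ring
      _ = τ * M := by rw [hsum, mul_one]
  set rr : Fin n → ℝ := τ • a - ∑ i, (N i : ℝ) • v i with hrr
  have hrrb : ∀ j, |rr j| ≤ δ0 := by
    intro j
    have e : rr j = ∑ i, (τ * lam i * (z i j - δ * (wt (z i) j : ℝ))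
        + (τ * lam i * M - N i) * (d * (wt (z i) j : ℝ))) := by
      rw [hrr, ← hcomb]
      simp only [Pi.sub_apply, Pi.smul_apply, Finset.sum_apply, smul_eq_mul, hv]
      rw [Finset.mul_sum, ← Finset.sum_sub_distrib]
      refine Finset.sum_congr rfl (fun i _ => ?_)
      rw [← hMd]
      ring
    rw [e]
    refine (Finset.abs_sum_le_sum_abs _ _).trans ?_
    have h1 : ∀ i ∈ (Finset.univ : Finset ι), |τ * lam i * (z i j - δ * (wt (z i) j : ℝ))
        + (τ * lam i * M - N i) * (d * (wt (z i) j : ℝ))| ≤ lam i * δ + (b + δ) / M := by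
      intro i _
      refine (abs_add_le _ _).trans (add_le_add ?_ ?_)
      · rw [abs_mul, abs_of_nonneg (mul_nonneg hτ0 (hpos i).le)]
        refine mul_le_mul ?_ (happ (z i) j) (abs_nonneg _) (hpos i).le
        have := (hpos i).le
        nlinarith
      · rw [abs_mul]
        have h2 : |τ * lam i * M - N i| ≤ 1 := by
          rw [abs_le]
          constructor <;> linarith [hNle i, hNgt i]
        calc |τ * lam i * M - N i| * |d * (wt (z i) j : ℝ)| ≤ 1 * ((b + δ) / M) :=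
              mul_le_mul h2 (hdsize (z i) (hzW i) j) (abs_nonneg _) zero_le_one
          _ = (b + δ) / M := one_mul _
    refine (Finset.sum_le_sum h1).trans ?_
    rw [Finset.sum_add_distrib, ← Finset.sum_mul, hsum, one_mul, Finset.sum_const,
      Finset.card_univ, nsmul_eq_mul]
    have h3 : (Fintype.card ι : ℝ) * ((b + δ) / M) ≤ (n + 1) * ((b + δ) / M) :=
      mul_le_mul_of_nonneg_right hcard (by positivity)
    linarith
  have hrem := Av_sub_le d R hRpos p rr (min ω 1) (fun y => hp rr hrrb y)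
    (x + ∑ i, (N i : ℝ) • v i)
  have e5 : x + ∑ i, (N i : ℝ) • v i + rr = x + τ • a := by
    rw [hrr]; abel
  rw [e5] at hrem
  have e6 : Av d R p (x + τ • a) - Av d R p x
      = (Av d R p (x + τ • a) - Av d R p (x + ∑ i, (N i : ℝ) • v i))
        + (Av d R p (x + ∑ i, (N i : ℝ) • v i) - Av d R p x) := by abel
  rw [e6]
  refine (norm_add_le _ _).trans ?_
  have h8 : (L + 2) / M * ∑ i, (N i : ℝ) ≤ (L + 2) * τ := by
    calc (L + 2) / M * ∑ i, (N i : ℝ) ≤ (L + 2) / M * (τ * M) :=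
          mul_le_mul_of_nonneg_left hNsum (by positivity)
      _ = (L + 2) * τ := by field_simp
  have h9 := min_le_left ω 1
  linarith

lemma disp_bound (p : (Fin n → ℝ) → Y) (δ0 : ℝ) (hδ0 : 0 < δ0)
    (hp : ∀ r : Fin n → ℝ, (∀ i, |r i| ≤ δ0) → ∀ y, ‖p (y + r) - p y‖ ≤ 1)
    (v : Fin n → ℝ) (D : ℝ) (hD : ∀ i, |v i| ≤ D) (hD0 : 0 ≤ D) (y : Fin n → ℝ) :
    ‖p (y + v) - p y‖ ≤ D / δ0 + 1 := by
  set N : ℕ := ⌊D / δ0⌋₊ + 1 with hN
  have hNpos : (0 : ℝ) < N := by rw [hN]; positivity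
  have hDN : D / N ≤ δ0 := by
    have h1 : D / δ0 < N := by
      rw [hN]; push_cast
      exact Nat.lt_floor_add_one _
    rw [div_lt_iff₀ hδ0] at h1
    rw [div_le_iff₀ hNpos]
    linarith
  have h := steps_bound p 1 ({()} : Finset Unit) (fun _ => (1 / (N : ℝ)) • v) (fun _ => N) (by
    intro _ x
    refine hp _ (fun i => ?_) x
    rw [Pi.smul_apply, smul_eq_mul, abs_mul, abs_of_pos (by positivity)]
    calc 1 / (N : ℝ) * |v i| ≤ 1 / (N : ℝ) * D := mul_le_mul_of_nonneg_left (hD i) (by positivity)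
      _ = D / N := by ring
      _ ≤ δ0 := hDN) y
  rw [Finset.sum_singleton, Finset.sum_singleton, smul_smul] at h
  have e : (N : ℝ) * (1 / N) = 1 := by field_simp
  rw [e, one_smul, one_mul] at h
  refine h.trans ?_
  rw [hN]
  push_cast
  have h3 : (⌊D / δ0⌋₊ : ℝ) ≤ D / δ0 := Nat.floor_le (by positivity)
  linarith

lemma Av_near (p : (Fin n → ℝ) → Y) (d : ℝ) (R : ℕ) (hR : 0 < R) (c : ℝ)
    (hc : ∀ z ∈ Box R (Finset.univ : Finset (Fin n)), ∀ y, ‖p (y + gp d z) - p y‖ ≤ c)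
    (x : Fin n → ℝ) : ‖Av d R p x - p x‖ ≤ c := by
  have hRn : (0 : ℝ) < (R : ℝ) ^ n := by positivity
  have e : Av d R p x - p x = ((R : ℝ) ^ n)⁻¹ • ∑ z ∈ Box R (Finset.univ : Finset (Fin n)),
      (p (x + gp d z) - p x) := by
    unfold Av SR
    rw [Finset.sum_sub_distrib, smul_sub, Finset.sum_const, card_Box, Finset.card_univ,
      Fintype.card_fin, ← Nat.cast_smul_eq_nsmul ℝ, smul_smul]
    push_cast
    rw [inv_mul_cancel₀ hRn.ne', one_smul]
  rw [e, norm_smul, norm_inv, norm_pow, Real.norm_natCast, inv_mul_le_iff₀ hRn]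
  refine (norm_sum_le _ _).trans ((Finset.sum_le_sum (fun z hz => hc z hz x)).trans
    (le_of_eq ?_))
  rw [Finset.sum_const, card_Box, Finset.card_univ, Fintype.card_fin, nsmul_eq_mul]
  push_cast
  ring

end

end W68deb0
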