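import Mathlib
import Pool.Agent.W_68deb0.Cube

/-!
A map at bounded distance from the identity of `ℝⁿ` is onto (approximate version).
-/

namespace W68deb0

theorem approx_onto {n : ℕ} (h : (Fin n → ℝ) → (Fin n → ℝ)) (C0 : ℝ) (hC0 : 0 ≤ C0)
    (hC : ∀ x i, |h x i - x i| ≤ C0) (ε δ : ℝ) (hδ : 0 < δ)
    (hu : ∀ x y : Fin n → ℝ, (∀ i, |x i - y i| ≤ δ) → ∀ i, |h x i - h y i| ≤ ε)
    (T : Fin n → ℝ) : ∃ x : Fin n → ℝ, (∀ i, |h x i - T i| ≤ ε) ∧ ∀ i, |x i - T i| ≤ C0 + 1 := by
  classical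
  obtain ⟨N0, hN0⟩ := exists_nat_ge (2 * (C0 + 1) / δ)
  set N : ℕ := N0 + 1 with hN
  have hNpos : (0 : ℝ) < N := by rw [hN]; positivity
  have hmesh : 2 * (C0 + 1) / N ≤ δ := by
    rw [div_le_iff₀ hNpos]
    rw [div_le_iff₀ hδ] at hN0
    have : (N0 : ℝ) ≤ N := by rw [hN]; push_cast; linarith
    nlinarith
  set pt : (Fin n → ℕ) → Fin n → ℝ := fun z i => T i - (C0 + 1) + 2 * (C0 + 1) / N * z i with hpt
  obtain ⟨z, hzN, hz⟩ := cube_lemma N
    (fun (i : Fin n) (z : Fin n → ℕ) => if h (pt z) i < T i then (0 : ZMod 2) else 1) (by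
      intro i y hy
      have h1 := abs_le.1 (hC (pt y) i)
      have h2 : pt y i = T i - (C0 + 1) := by simp [hpt, hy]
      have : h (pt y) i < T i := by linarith [h1.2]
      simp [this]) (by
      intro i y hy
      have h1 := abs_le.1 (hC (pt y) i)
      have h2 : pt y i = T i + (C0 + 1) := by
        simp only [hpt, hy]
        field_simp
        ring
      have : ¬ h (pt y) i < T i := by linarith [h1.1]
      simp [this])
  have hclose : ∀ u : Fin n → ℕ, (∀ j, z j ≤ u j ∧ u j ≤ z j + 1) → ∀ i,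
      |h (pt z) i - h (pt u) i| ≤ ε := by
    intro u hu'
    refine hu _ _ (fun j => ?_)
    have e : pt z j - pt u j = 2 * (C0 + 1) / N * ((z j : ℝ) - u j) := by
      simp only [hpt]; ring
    have h1 : (z j : ℝ) ≤ u j := by exact_mod_cast (hu' j).1
    have h2 : (u j : ℝ) ≤ z j + 1 := by exact_mod_cast (hu' j).2
    have h3 : (0 : ℝ) ≤ 2 * (C0 + 1) / N := by positivity
    rw [e, abs_mul, abs_of_nonneg h3]
    have h4 : |(z j : ℝ) - u j| ≤ 1 := by rw [abs_le]; constructor <;> linarith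
    calc 2 * (C0 + 1) / N * |(z j : ℝ) - u j| ≤ 2 * (C0 + 1) / N * 1 :=
          mul_le_mul_of_nonneg_left h4 h3
      _ ≤ δ := by rw [mul_one]; exact hmesh
  refine ⟨pt z, fun i => ?_, fun i => ?_⟩
  · obtain ⟨u, w, hu1, hw1, h1, h2⟩ := hz i
    have hu2 : h (pt u) i < T i := by
      by_contra hcon
      simp [hcon] at h1
    have hw2 : ¬ h (pt w) i < T i := by
      intro hcon
      simp [hcon] at h2
    push Not at hw2
    have a1 := abs_le.1 (hclose u hu1 i)
    have a2 := abs_le.1 (hclose w hw1 i)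
    rw [abs_le]
    constructor <;> linarith
  · have h1 : (0 : ℝ) ≤ z i := by positivity
    have h2 : (z i : ℝ) ≤ N := by exact_mod_cast (hzN i).le
    have e : pt z i - T i = -(C0 + 1) + 2 * (C0 + 1) * (z i / N) := by
      simp only [hpt]; ring
    have h3 : (0 : ℝ) ≤ z i / N := by positivity
    have h4 : (z i : ℝ) / N ≤ 1 := by rw [div_le_one hNpos]; exact h2
    rw [e, abs_le]
    constructor <;> nlinarith

end W68deb0
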