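import Mathlib

/-!
The volume comparison.
-/

open MeasureTheory Set
open scoped Pointwise ENNReal

namespace W68deb0

lemma volume_Icc_const (n : ℕ) (s t : ℝ) :
    volume (Set.Icc (fun _ : Fin n => s) (fun _ => t)) = ENNReal.ofReal (t - s) ^ n := by
  rw [Real.volume_Icc_pi]
  simp

lemma volume_interior_convex {n : ℕ} {K : Set (Fin n → ℝ)} (hK : Convex ℝ K) :
    volume (interior K) = volume K := by
  have h1 : volume (frontier K) = 0 := hK.addHaar_frontier volume
  refine le_antisymm (measure_mono interior_subset) ?_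
  have h2 : K ⊆ interior K ∪ frontier K := by
    intro x hx
    by_cases h : x ∈ interior K
    · exact Or.inl h
    · exact Or.inr ⟨subset_closure hx, h⟩
  calc volume K ≤ volume (interior K ∪ frontier K) := measure_mono h2
    _ ≤ volume (interior K) + volume (frontier K) := measure_union_le _ _
    _ = volume (interior K) := by rw [h1, add_zero]

lemma exists_max_card {α : Type*} (P : Finset α → Prop) (h0 : P ∅) (B : ℕ)
    (hB : ∀ F, P F → F.card ≤ B) : ∃ F, P F ∧ ∀ F', P F' → F'.card ≤ F.card := by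
  classical
  have hne : {k | ∃ F, P F ∧ F.card = k}.Nonempty := ⟨0, ∅, h0, by simp⟩
  have hbd : BddAbove {k | ∃ F, P F ∧ F.card = k} := by
    refine ⟨B, ?_⟩
    rintro k ⟨F, hF, rfl⟩
    exact hB F hF
  obtain ⟨F, hF, hk⟩ := Nat.sSup_mem hne hbd
  refine ⟨F, hF, fun F' hF' => ?_⟩
  rw [hk]
  exact le_csSup hbd ⟨F', hF', rfl⟩

theorem vol_core {n : ℕ} (h : (Fin n → ℝ) → (Fin n → ℝ)) (C0 ε2 r : ℝ) (hC0 : 0 ≤ C0)
    (hr : 0 < r) (K V : Set (Fin n → ℝ)) (hK : Convex ℝ K) (b : ℝ) (hb : 0 ≤ b)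
    (hKb : ∀ a ∈ K, ∀ i, |a i| ≤ b)
    (hon : ∀ T : Fin n → ℝ, ∃ x : Fin n → ℝ, (∀ i, |h x i - T i| ≤ ε2) ∧
      ∀ i, |x i - T i| ≤ C0 + 1)
    (hV : ∀ x y : Fin n → ℝ, (∃ a ∈ K, ∃ c ∈ K, x + r • a = y + r • c) →
      ∀ T : Fin n → ℝ, (∀ i, |h x i - T i| ≤ ε2) → T - h y ∈ V) :
    ENNReal.ofReal r ^ n * volume K ≤ 2 ^ n * volume V := by
  classical
  by_cases hK0 : volume K = 0
  · rw [hK0, mul_zero]; exact bot_le
  have hKne : K.Nonempty := by
    rw [nonempty_iff_ne_empty]
    rintro rfl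
    exact hK0 measure_empty
  obtain ⟨a0, ha0⟩ := hKne
  set C2 : ℝ := C0 + 1 + r * b with hC2
  have hC2pos : 0 < C2 := by positivity
  set ρ : ℝ := 2 * C2 with hρ
  have hρpos : 0 < ρ := by positivity
  -- packings
  set P : Finset (Fin n → ℝ) → Prop := fun F => (∀ x ∈ F, ∀ i, -(C0 + 1) ≤ x i ∧
    x i ≤ ρ + (C0 + 1)) ∧ ∀ x ∈ F, ∀ y ∈ F, x ≠ y → ¬ ∃ a ∈ K, ∃ c ∈ K, x + r • a = y + r • c
    with hP
  have hvolr : ∀ x : Fin n → ℝ, volume (x +ᵥ r • interior K) = ENNReal.ofReal r ^ n * volume K := by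
    intro x
    rw [measure_vadd, Measure.addHaar_smul, volume_interior_convex hK, Module.finrank_fin_fun,
      abs_of_pos (by positivity), ENNReal.ofReal_pow hr.le]
  have hpack : ∀ F, P F → (F.card : ℝ≥0∞) * (ENNReal.ofReal r ^ n * volume K)
      ≤ ENNReal.ofReal (ρ + 2 * C2) ^ n := by
    intro F hF
    have hdisj : (F : Set (Fin n → ℝ)).PairwiseDisjoint (fun x => x +ᵥ r • interior K) := by
      intro x hx y hy hxy
      rw [Function.onFun, Set.disjoint_left]
      rintro z ⟨_, ⟨a, ha, rfl⟩, hza⟩ ⟨_, ⟨c, hc, rfl⟩, hzc⟩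
      refine hF.2 x hx y hy hxy ⟨a, interior_subset ha, c, interior_subset hc, ?_⟩
      exact hza.trans hzc.symm
    have hmeas : ∀ x ∈ F, MeasurableSet (x +ᵥ r • interior K) := by
      intro x _
      have h1 : IsOpen (r • interior K) := isOpen_interior.smul₀ hr.ne'
      exact (h1.vadd x).measurableSet
    have h1 : volume (⋃ x ∈ F, (x +ᵥ r • interior K)) = ∑ x ∈ F, volume (x +ᵥ r • interior K) :=
      measure_biUnion_finset hdisj hmeas
    have h2 : ∑ x ∈ F, volume (x +ᵥ r • interior K)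
        = (F.card : ℝ≥0∞) * (ENNReal.ofReal r ^ n * volume K) := by
      simp only [hvolr]
      rw [Finset.sum_const, nsmul_eq_mul]
    rw [← h2, ← h1]
    have hsub : (⋃ x ∈ F, (x +ᵥ r • interior K)) ⊆
        Set.Icc (fun _ : Fin n => -C2) (fun _ => ρ + C2) := by
      intro z hz
      simp only [Set.mem_iUnion] at hz
      obtain ⟨x, hx, hz⟩ := hz
      obtain ⟨_, ⟨a, ha, rfl⟩, hza⟩ := hz
      have hxb := hF.1 x hx
      have hab := hKb a (interior_subset ha)
      have hzi : ∀ i, z i = x i + r * a i := by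
        intro i
        rw [← hza]
        rfl
      rw [Set.mem_Icc, Pi.le_def, Pi.le_def]
      constructor
      · intro i
        rw [hzi i]
        have h3 := abs_le.1 (hab i)
        have h4 : r * -b ≤ r * a i := mul_le_mul_of_nonneg_left h3.1 hr.le
        have h5 := (hxb i).1
        linarith
      · intro i
        rw [hzi i]
        have h3 := abs_le.1 (hab i)
        have h4 : r * a i ≤ r * b := mul_le_mul_of_nonneg_left h3.2 hr.le
        have h5 := (hxb i).2
        linarith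
    refine (measure_mono hsub).trans (le_of_eq ?_)
    rw [volume_Icc_const]
    congr 2
    ring
  have hrn : ENNReal.ofReal r ^ n ≠ 0 := by
    refine pow_ne_zero _ ?_
    rw [ne_eq, ENNReal.ofReal_eq_zero, not_le]
    exact hr
  have hunit : ENNReal.ofReal r ^ n * volume K ≠ 0 := mul_ne_zero hrn hK0
  obtain ⟨B, hB⟩ : ∃ B : ℕ, ∀ F, P F → F.card ≤ B := by
    have hfin : ENNReal.ofReal (ρ + 2 * C2) ^ n / (ENNReal.ofReal r ^ n * volume K) ≠ ∞ :=
      ENNReal.div_ne_top (ENNReal.pow_ne_top ENNReal.ofReal_ne_top) hunit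
    obtain ⟨B, hB⟩ := ENNReal.exists_nat_gt hfin
    refine ⟨B, fun F hF => ?_⟩
    have h1 := hpack F hF
    by_cases htop : ENNReal.ofReal r ^ n * volume K = ∞
    · rw [htop] at h1
      by_contra hcon
      have hc0 : (F.card : ℝ≥0∞) ≠ 0 := by
        have : F.card ≠ 0 := by omega
        exact_mod_cast this
      rw [ENNReal.mul_top hc0, top_le_iff] at h1
      exact (ENNReal.pow_ne_top ENNReal.ofReal_ne_top) h1
    · have h2 : (F.card : ℝ≥0∞) ≤
          ENNReal.ofReal (ρ + 2 * C2) ^ n / (ENNReal.ofReal r ^ n * volume K) := by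
        rw [ENNReal.le_div_iff_mul_le (Or.inl hunit) (Or.inl htop)]
        exact h1
      have h3 : (F.card : ℝ≥0∞) < B := lt_of_le_of_lt h2 hB
      exact_mod_cast h3.le
  have hP0 : P ∅ := by
    refine ⟨fun x hx => absurd hx (by simp), fun x hx => absurd hx (by simp)⟩
  obtain ⟨F, hF, hmax⟩ := exists_max_card P hP0 B hB
  -- the covering
  have hcov : Set.Icc (fun _ : Fin n => (0 : ℝ)) (fun _ => ρ) ⊆ ⋃ y ∈ F, (h y +ᵥ V) := by
    intro T hT
    rw [Set.mem_Icc, Pi.le_def, Pi.le_def] at hT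
    obtain ⟨x, hx1, hx2⟩ := hon T
    have hxb : ∀ i, -(C0 + 1) ≤ x i ∧ x i ≤ ρ + (C0 + 1) := by
      intro i
      have h1 := abs_le.1 (hx2 i)
      have h2 : 0 ≤ T i := hT.1 i
      have h3 : T i ≤ ρ := hT.2 i
      constructor <;> linarith
    obtain ⟨y, hyF, hy⟩ : ∃ y ∈ F, ∃ a ∈ K, ∃ c ∈ K, x + r • a = y + r • c := by
      by_contra hcon
      push Not at hcon
      have hxF : x ∉ F := fun hxF => hcon x hxF a0 ha0 a0 ha0 rfl
      have hPins : P (insert x F) := by
        refine ⟨?_, ?_⟩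
        · intro z hz
          rw [Finset.mem_insert] at hz
          rcases hz with rfl | hz
          · exact hxb
          · exact hF.1 z hz
        · intro z hz w hw hzw
          rw [Finset.mem_insert] at hz hw
          rcases hz with rfl | hz <;> rcases hw with rfl | hw
          · exact absurd rfl hzw
          · rintro ⟨a, ha, c, hc, he⟩
            exact hcon w hw a ha c hc he
          · rintro ⟨a, ha, c, hc, he⟩
            exact hcon z hz c hc a ha he.symm
          · exact hF.2 z hz w hw hzw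
      have h4 := hmax _ hPins
      rw [Finset.card_insert_of_notMem hxF] at h4
      omega
    have h5 := hV x y hy T hx1
    simp only [Set.mem_iUnion]
    refine ⟨y, hyF, ?_⟩
    refine ⟨T - h y, h5, ?_⟩
    simp
  have hvol : ENNReal.ofReal ρ ^ n ≤ (F.card : ℝ≥0∞) * volume V := by
    calc ENNReal.ofReal ρ ^ n = volume (Set.Icc (fun _ : Fin n => (0 : ℝ)) (fun _ => ρ)) := by
          rw [volume_Icc_const, sub_zero]
      _ ≤ volume (⋃ y ∈ F, (h y +ᵥ V)) := measure_mono hcov
      _ ≤ ∑ y ∈ F, volume (h y +ᵥ V) := measure_biUnion_finset_le _ _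
      _ = (F.card : ℝ≥0∞) * volume V := by
          simp only [measure_vadd]
          rw [Finset.sum_const, nsmul_eq_mul]
  have hρn : ENNReal.ofReal ρ ^ n ≠ 0 := by
    refine pow_ne_zero _ ?_
    rw [ne_eq, ENNReal.ofReal_eq_zero, not_le]
    exact hρpos
  have hF0 : (F.card : ℝ≥0∞) ≠ 0 := by
    intro h0
    rw [h0, zero_mul] at hvol
    exact hρn (le_antisymm hvol bot_le)
  have hfinal : (F.card : ℝ≥0∞) * (ENNReal.ofReal r ^ n * volume K)
      ≤ (F.card : ℝ≥0∞) * (2 ^ n * volume V) := by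
    calc (F.card : ℝ≥0∞) * (ENNReal.ofReal r ^ n * volume K)
        ≤ ENNReal.ofReal (ρ + 2 * C2) ^ n := hpack F hF
      _ = 2 ^ n * ENNReal.ofReal ρ ^ n := by
          rw [← mul_pow]
          congr 1
          have : ρ + 2 * C2 = 2 * ρ := by rw [hρ]; ring
          rw [this, ENNReal.ofReal_mul (by norm_num)]
          norm_num
      _ ≤ 2 ^ n * ((F.card : ℝ≥0∞) * volume V) := by gcongr
      _ = (F.card : ℝ≥0∞) * (2 ^ n * volume V) := by ring
  exact (ENNReal.mul_le_mul_iff_right hF0 (ENNReal.natCast_ne_top _)).1 hfinal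

end W68deb0
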