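import Mathlib
import Pool.Agent.W_68deb0.Degree
import Pool.Agent.W_68deb0.Conv
import Pool.Agent.W_68deb0.Volume

/-!
The volume ratio theorem for uniform retracts of normed spaces.
-/

open MeasureTheory Topology
open scoped Pointwise ENNReal NNReal

universe u v

namespace W68deb0

lemma chainY {Y E : Type*} [NormedAddCommGroup Y] [NormedSpace ℝ Y] [NormedAddCommGroup E]
    (q : Y → E) (η : ℝ) (hη : 0 < η) (hq : ∀ u v : Y, ‖u - v‖ ≤ η → ‖q u - q v‖ ≤ 1) (u v : Y) :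
    ‖q u - q v‖ ≤ ‖u - v‖ / η + 1 := by
  set N : ℕ := ⌊‖u - v‖ / η⌋₊ + 1 with hN
  have hNpos : (0 : ℝ) < N := by rw [hN]; positivity
  set w : ℕ → Y := fun j => v + ((j : ℝ) / N) • (u - v) with hw
  have hstep : ∀ j, ‖w (j + 1) - w j‖ ≤ η := by
    intro j
    have e : w (j + 1) - w j = (1 / (N : ℝ)) • (u - v) := by
      simp only [hw]
      rw [add_sub_add_left_eq_sub, ← sub_smul]
      congr 1
      push_cast
      ring
    rw [e, norm_smul, Real.norm_eq_abs, abs_of_pos (by positivity)]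
    have h1 : ‖u - v‖ / η < N := by
      rw [hN]; push_cast
      exact Nat.lt_floor_add_one _
    rw [div_lt_iff₀ hη] at h1
    rw [one_div, inv_mul_le_iff₀ hNpos]
    linarith
  have hind : ∀ j : ℕ, ‖q (w j) - q (w 0)‖ ≤ j := by
    intro j
    induction j with
    | zero => simp
    | succ j ih =>
      have h1 := hq (w (j + 1)) (w j) (hstep j)
      have e : q (w (j + 1)) - q (w 0) = (q (w (j + 1)) - q (w j)) + (q (w j) - q (w 0)) := by
        abel
      rw [e]
      refine (norm_add_le _ _).trans ?_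
      push_cast
      linarith
  have hw0 : w 0 = v := by simp [hw]
  have hwN : w N = u := by
    simp only [hw]
    rw [div_self hNpos.ne', one_smul]
    abel
  have := hind N
  rw [hw0, hwN] at this
  refine this.trans ?_
  rw [hN]
  push_cast
  have h3 : (⌊‖u - v‖ / η⌋₊ : ℝ) ≤ ‖u - v‖ / η := Nat.floor_le (by positivity)
  linarith

section

variable {X : Type u} [AddCommGroup X] [Module ℝ X] [UniformSpace X] [IsUniformAddGroup X]
  [ContinuousSMul ℝ X] {Y : Type v} [NormedAddCommGroup Y] [NormedSpace ℝ Y]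

omit [ContinuousSMul ℝ X] [NormedSpace ℝ Y] in
/-- a uniformly continuous map moves points by a bounded amount along bounded vectors -/
lemma large_lip {f : X → Y} (hf : UniformContinuous f) {B : Set X}
    (hB : Bornology.IsVonNBounded ℝ B) :
    ∃ L : ℝ, 0 ≤ L ∧ ∀ x : X, ∀ c ∈ B, ‖f (x + c) - f x‖ ≤ L := by
  obtain ⟨V, hV, hVf⟩ : ∃ V ∈ 𝓝 (0 : X), ∀ x y : X, y - x ∈ V → ‖f y - f x‖ ≤ 1 := by
    have h1 := uniformContinuous_def.1 hf _ (Metric.dist_mem_uniformity (one_pos))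
    rw [uniformity_eq_comap_nhds_zero X, Filter.mem_comap] at h1
    obtain ⟨V, hV, hsub⟩ := h1
    refine ⟨V, hV, fun x y hxy => ?_⟩
    have h2 : (x, y) ∈ (fun x : X × X => x.2 - x.1) ⁻¹' V := hxy
    have h3 := hsub h2
    have h4 : dist (f x) (f y) < 1 := h3
    rw [dist_comm, dist_eq_norm] at h4
    exact h4.le
  obtain ⟨r, hr⟩ := absorbs_iff_norm.1 (hB hV)
  obtain ⟨N, hN⟩ := exists_nat_ge (max r 1)
  have hNr : r ≤ ‖(N : ℝ)‖ := by
    rw [Real.norm_eq_abs, abs_of_nonneg (by positivity)]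
    exact (le_max_left _ _).trans hN
  have hsubB := hr (N : ℝ) hNr
  refine ⟨N, by positivity, ?_⟩
  intro x c hc
  obtain ⟨w, hw, hwc⟩ := Set.mem_smul_set.1 (hsubB hc)
  have hind : ∀ j : ℕ, ‖f (x + (j : ℝ) • w) - f x‖ ≤ j := by
    intro j
    induction j with
    | zero => simp
    | succ j ih =>
      have h1 : ‖f (x + ((j + 1 : ℕ) : ℝ) • w) - f (x + (j : ℝ) • w)‖ ≤ 1 := by
        apply hVf
        have : x + ((j + 1 : ℕ) : ℝ) • w - (x + (j : ℝ) • w) = w := by
          push_cast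
          rw [add_smul, one_smul]
          abel
        rwa [this]
      have h2 : f (x + ((j + 1 : ℕ) : ℝ) • w) - f x
          = (f (x + ((j + 1 : ℕ) : ℝ) • w) - f (x + (j : ℝ) • w))
            + (f (x + (j : ℝ) • w) - f x) := by abel
      rw [h2]
      refine (norm_add_le _ _).trans ?_
      push_cast at h1 ⊢
      linarith
  have := hind N
  rwa [hwc] at this

omit [Module ℝ X] [ContinuousSMul ℝ X] [NormedSpace ℝ Y] in
lemma uc_nhds {g : Y → X} (hg : UniformContinuous g) {W : Set X} (hW : W ∈ 𝓝 (0 : X)) :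
    ∃ δ : ℝ, 0 < δ ∧ ∀ u v : Y, ‖u - v‖ ≤ δ → g u - g v ∈ W := by
  have h1 : {q : X × X | q.2 - q.1 ∈ W} ∈ uniformity X := by
    rw [uniformity_eq_comap_nhds_zero X]
    exact ⟨W, hW, fun q hq => hq⟩
  have h2 := uniformContinuous_def.1 hg _ h1
  obtain ⟨ε, hε, h3⟩ := Metric.mem_uniformity_dist.1 h2
  refine ⟨ε / 2, by positivity, fun u v huv => ?_⟩
  have h4 : dist v u < ε := by
    rw [dist_comm, dist_eq_norm]
    linarith
  exact h3 h4

/-- **Volume ratio theorem.** -/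
theorem vol_ratio {f : X → Y} {g : Y → X} (hf : UniformContinuous f) (hg : UniformContinuous g)
    (hgf : ∀ x, g (f x) = x) {B U : Set X} (hB : Bornology.IsVonNBounded ℝ B)
    (hU : U ∈ 𝓝 (0 : X)) :
    ∃ C : ℝ≥0, ∀ (n : ℕ) (σ : (Fin n → ℝ) →ₗ[ℝ] X) (π : X →L[ℝ] (Fin n → ℝ)),
      (∀ x, π (σ x) = x) →
      volume (convexHull ℝ (σ ⁻¹' B)) ≤ (C : ℝ≥0∞) ^ n * volume (π '' U) := by
  classical
  obtain ⟨L, hL0, hL⟩ := large_lip hf hB
  obtain ⟨U0, hU0, hU0U⟩ := exists_nhds_zero_half hU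
  obtain ⟨η0, hη0, hg0⟩ := uc_nhds hg hU0
  set r : ℝ := min 1 (η0 / (4 * (L + 2))) with hr
  have hrpos : 0 < r := by positivity
  have hr1 : r ≤ 1 := min_le_left _ _
  have hr2 : (L + 2) * r ≤ η0 / 4 := by
    have h1 : r ≤ η0 / (4 * (L + 2)) := min_le_right _ _
    rw [le_div_iff₀ (by positivity)] at h1
    linarith
  refine ⟨Real.toNNReal (2 / r), ?_⟩
  intro n σ π hπσ
  rcases Nat.eq_zero_or_pos n with hn | hn
  · subst hn
    have h1 : (π '' U) = Set.univ := by
      have h0 : (0 : X) ∈ U := mem_of_mem_nhds hU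
      refine Set.eq_univ_of_forall (fun y => ⟨0, h0, ?_⟩)
      exact Subsingleton.elim _ _
    rw [h1, pow_zero, one_mul]
    exact measure_mono (Set.subset_univ _)
  have hσc : Continuous σ := LinearMap.continuous_of_finiteDimensional σ
  have hσu : UniformContinuous σ := uniformContinuous_addMonoidHom_of_continuous hσc
  set p : (Fin n → ℝ) → Y := fun x => f (σ x) with hpdef
  have hpu : UniformContinuous p := hf.comp hσu
  have hpδ : ∀ c : ℝ, 0 < c → ∃ δ : ℝ, 0 < δ ∧ ∀ v : Fin n → ℝ, (∀ i, |v i| ≤ δ) →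
      ∀ y, ‖p (y + v) - p y‖ ≤ c := by
    intro c hc
    obtain ⟨δ, hδ, h1⟩ := Metric.uniformContinuous_iff.1 hpu c hc
    refine ⟨δ / 2, by positivity, fun v hv y => ?_⟩
    have h2 : dist (y + v) y < δ := by
      rw [dist_eq_norm, add_sub_cancel_left]
      refine lt_of_le_of_lt ((pi_norm_le_iff_of_nonneg (by positivity)).2 (fun i => ?_))
        (half_lt_self hδ)
      exact hv i
    have h3 := h1 h2
    rw [dist_eq_norm] at h3
    exact h3.le
  set ω : ℝ := η0 / 4 with hω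
  have hωpos : 0 < ω := by positivity
  obtain ⟨δ0, hδ0, hp⟩ := hpδ (min ω 1) (by positivity)
  set W : Set (Fin n → ℝ) := σ ⁻¹' B with hW
  obtain ⟨b, hb, hWb⟩ : ∃ b : ℝ, 0 ≤ b ∧ ∀ w ∈ W, ∀ i, |w i| ≤ b := by
    have h1 : Bornology.IsVonNBounded ℝ (π '' B) := hB.image π
    rw [NormedSpace.isVonNBounded_iff] at h1
    obtain ⟨b, hb⟩ := isBounded_iff_forall_norm_le.1 h1
    refine ⟨max b 0, le_max_right _ _, fun w hw i => ?_⟩
    have h2 : w ∈ π '' B := ⟨σ w, hw, hπσ w⟩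
    exact (norm_le_pi_norm w i).trans ((hb w h2).trans (le_max_left _ _))
  obtain ⟨d, R, hd, hR, hAv⟩ := Av_convex hn p δ0 hδ0 ω hp W b hb hWb L hL0 (by
    intro w hw y
    simp only [hpdef, map_add]
    exact hL (σ y) (σ w) hw)
  set h : (Fin n → ℝ) → (Fin n → ℝ) := fun x => π (g (Av d R p x)) with hh
  -- displacement of h
  have hcA : ∀ x, ‖Av d R p x - p x‖ ≤ (d * R) / δ0 + 1 := by
    refine Av_near p d R hR _ (fun z hz y => ?_)
    refine disp_bound p δ0 hδ0 (fun v hv y => (hp v hv y).trans (min_le_right _ _)) _ (d * R)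
      (fun i => ?_) (by positivity) y
    rw [mem_Box] at hz
    have h1 : z i < R := (hz i).1 (Finset.mem_univ _)
    have h2 : (z i : ℝ) ≤ R := by exact_mod_cast h1.le
    unfold gp
    rw [abs_of_nonneg (by positivity)]
    exact mul_le_mul_of_nonneg_left h2 hd.le
  have hπg : ∀ c : ℝ, 0 < c → ∃ κ : ℝ, 0 < κ ∧ ∀ u v : Y, ‖u - v‖ ≤ κ →
      ‖π (g u) - π (g v)‖ ≤ c := by
    intro c hc
    have h1 : π ⁻¹' Metric.closedBall 0 c ∈ 𝓝 (0 : X) := by
      apply π.continuous.continuousAt.preimage_mem_nhds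
      rw [map_zero]
      exact Metric.closedBall_mem_nhds _ hc
    obtain ⟨κ, hκ, h2⟩ := uc_nhds hg h1
    refine ⟨κ, hκ, fun u v huv => ?_⟩
    have h3 := h2 u v huv
    rw [Set.mem_preimage, mem_closedBall_zero_iff, map_sub] at h3
    exact h3
  obtain ⟨η1, hη1, hq1⟩ := hπg 1 one_pos
  set C0 : ℝ := ((d * R) / δ0 + 1) / η1 + 1 with hC0
  have hC0pos : 0 ≤ C0 := by positivity
  have hdisp : ∀ x i, |h x i - x i| ≤ C0 := by
    intro x i
    have h1 := chainY (fun y => π (g y)) η1 hη1 hq1 (Av d R p x) (p x)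
    have h2 : π (g (p x)) = x := by
      simp only [hpdef]
      rw [hgf, hπσ]
    simp only [h2] at h1
    have h3 : ‖h x - x‖ ≤ C0 := by
      refine h1.trans ?_
      rw [hC0]
      have := hcA x
      gcongr
    exact (norm_le_pi_norm (h x - x) i).trans h3
  -- the small cube inside π U0
  obtain ⟨ε2, hε2, hcube⟩ : ∃ ε2 : ℝ, 0 < ε2 ∧ ∀ e : Fin n → ℝ, (∀ i, |e i| ≤ ε2) →
      σ e ∈ U0 := by
    have h1 : σ ⁻¹' U0 ∈ 𝓝 (0 : Fin n → ℝ) := by
      apply hσc.continuousAt.preimage_mem_nhds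
      rw [map_zero]
      exact hU0
    obtain ⟨ε, hε, h2⟩ := Metric.nhds_basis_closedBall.mem_iff.1 h1
    refine ⟨ε, hε, fun e he => h2 ?_⟩
    rw [mem_closedBall_zero_iff]
    exact (pi_norm_le_iff_of_nonneg hε.le).2 he
  obtain ⟨κ2, hκ2, hq2⟩ := hπg ε2 hε2
  obtain ⟨δ2, hδ2, hp2⟩ := hpδ κ2 hκ2
  have hon : ∀ T : Fin n → ℝ, ∃ x : Fin n → ℝ, (∀ i, |h x i - T i| ≤ ε2) ∧
      ∀ i, |x i - T i| ≤ C0 + 1 := by
    intro T
    refine approx_onto h C0 hC0pos hdisp ε2 δ2 hδ2 ?_ T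
    intro x y hxy i
    have h1 : ‖Av d R p x - Av d R p y‖ ≤ κ2 := by
      have h2 := Av_sub_le d R hR p (x - y) κ2 (fun z => hp2 (x - y) hxy z) y
      have e : y + (x - y) = x := by abel
      rwa [e] at h2
    exact (norm_le_pi_norm (h x - h y) i).trans (hq2 _ _ h1)
  have hV : ∀ x y : Fin n → ℝ, (∃ a ∈ convexHull ℝ W, ∃ c ∈ convexHull ℝ W,
      x + r • a = y + r • c) → ∀ T : Fin n → ℝ, (∀ i, |h x i - T i| ≤ ε2) → T - h y ∈ π '' U := by
    rintro x y ⟨a, ha, c, hc, he⟩ T hT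
    have h1 := hAv r hrpos.le hr1 a ha x
    have h2 := hAv r hrpos.le hr1 c hc y
    rw [he] at h1
    have h3 : ‖Av d R p x - Av d R p y‖ ≤ η0 := by
      have e : Av d R p x - Av d R p y = (Av d R p (y + r • c) - Av d R p y)
          - (Av d R p (y + r • c) - Av d R p x) := by abel
      rw [e]
      refine (norm_sub_le _ _).trans ?_
      linarith
    have h4 := hg0 _ _ h3
    have h5 := hcube (T - h x) (fun i => by
      rw [Pi.sub_apply, abs_sub_comm]
      exact hT i)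
    refine ⟨σ (T - h x) + (g (Av d R p x) - g (Av d R p y)), hU0U _ h5 _ h4, ?_⟩
    rw [map_add, hπσ, map_sub]
    simp only [hh]
    abel
  have hmain := vol_core h C0 ε2 r hC0pos hrpos (convexHull ℝ W) (π '' U)
    (convex_convexHull ℝ W) b hb (by
      intro a ha i
      have h1 : convexHull ℝ W ⊆ Metric.closedBall 0 b := by
        refine convexHull_min (fun w hw => ?_) (convex_closedBall _ _)
        rw [mem_closedBall_zero_iff]
        exact (pi_norm_le_iff_of_nonneg hb).2 (hWb w hw)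
      have h2 := h1 ha
      rw [mem_closedBall_zero_iff] at h2
      exact (norm_le_pi_norm a i).trans h2) hon hV
  have hrr : ENNReal.ofReal (1 / r) ^ n * ENNReal.ofReal r ^ n = 1 := by
    rw [← mul_pow, ← ENNReal.ofReal_mul (by positivity), one_div, inv_mul_cancel₀ hrpos.ne',
      ENNReal.ofReal_one, one_pow]
  have hCC : ((Real.toNNReal (2 / r) : ℝ≥0) : ℝ≥0∞) = ENNReal.ofReal (1 / r) * 2 := by
    have e1 : ((Real.toNNReal (2 / r) : ℝ≥0) : ℝ≥0∞) = ENNReal.ofReal (2 / r) := rfl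
    rw [e1]
    have e2 : (2 : ℝ) / r = (1 / r) * 2 := by ring
    rw [e2, ENNReal.ofReal_mul (by positivity)]
    norm_num
  calc volume (convexHull ℝ W) = ENNReal.ofReal (1 / r) ^ n * ENNReal.ofReal r ^ n
        * volume (convexHull ℝ W) := by rw [hrr, one_mul]
    _ = ENNReal.ofReal (1 / r) ^ n * (ENNReal.ofReal r ^ n * volume (convexHull ℝ W)) := by
        rw [mul_assoc]
    _ ≤ ENNReal.ofReal (1 / r) ^ n * (2 ^ n * volume (π '' U)) := by gcongr
    _ = ((Real.toNNReal (2 / r) : ℝ≥0) : ℝ≥0∞) ^ n * volume (π '' U) := by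
        rw [hCC, mul_pow, mul_assoc]

end

end W68deb0
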