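import Mathlib
import Pool.Agent.W_68deb0.VolRatio

/-!
Volume of Orlicz balls and the volume ratio theorem for Orlicz sequence spaces.
-/

open MeasureTheory Topology
open scoped Pointwise ENNReal NNReal

universe u v

namespace W68deb0

/-- growth iterated -/
lemma orl_iter (M : ℝ → ℝ) (hmono : MonotoneOn M (Set.Ici 0)) (m : ℕ)
    (hgrow : ∀ t, 0 < t → M t ≤ 1 → 2 * M (t / 2 ^ m) ≤ M t) (s : ℝ) (hs : 0 < s) :
    ∀ j : ℕ, M ((2 ^ m) ^ j * s) ≤ 1 → 2 ^ j * M s ≤ M ((2 ^ m) ^ j * s) := by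
  intro j
  induction j with
  | zero => intro _; simp
  | succ j ih =>
    intro h
    have h1 := hgrow ((2 ^ m) ^ (j + 1) * s) (by positivity) h
    have e : ((2 : ℝ) ^ m) ^ (j + 1) * s / 2 ^ m = (2 ^ m) ^ j * s := by
      rw [pow_succ]
      field_simp
    rw [e] at h1
    have h2 : M ((2 ^ m) ^ j * s) ≤ M ((2 ^ m) ^ (j + 1) * s) := by
      apply hmono
      · exact Set.mem_Ici.2 (by positivity)
      · exact Set.mem_Ici.2 (by positivity)
      · have : ((2 : ℝ) ^ m) ^ j ≤ (2 ^ m) ^ (j + 1) :=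
          pow_le_pow_right₀ (one_le_pow₀ (by norm_num)) (Nat.le_succ j)
        exact mul_le_mul_of_nonneg_right this hs.le
    have h3 := ih (h2.trans h)
    calc (2 : ℝ) ^ (j + 1) * M s = 2 * (2 ^ j * M s) := by ring
      _ ≤ 2 * M ((2 ^ m) ^ j * s) := by linarith
      _ ≤ _ := h1

/-- the pointwise bound -/
lemma orl_point (M : ℝ → ℝ) (hmono : MonotoneOn M (Set.Ici 0)) (hM0 : M 0 = 0) (m : ℕ)
    (hgrow : ∀ t, 0 < t → M t ≤ 1 → 2 * M (t / 2 ^ m) ≤ M t) (s : ℝ) (hs : 0 < s)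
    (n : ℕ) (hn : 1 ≤ n * M s) (x : ℝ) (hx : M |x| ≤ 1) :
    Real.exp (-(n * M |x|)) ≤ (2 * 4 ^ m * (2 * m).factorial : ℝ) * (1 + (x / s) ^ 2)⁻¹ := by
  have hfac : (1 : ℝ) ≤ (2 * m).factorial := by exact_mod_cast Nat.factorial_pos _
  have h4 : (1 : ℝ) ≤ 4 ^ m := one_le_pow₀ (by norm_num)
  have hpos : 0 < 1 + (x / s) ^ 2 := by positivity
  have hMnn : 0 ≤ M |x| := by
    rw [← hM0]
    exact hmono (Set.mem_Ici.2 le_rfl) (Set.mem_Ici.2 (abs_nonneg x)) (abs_nonneg x)
  have hxs : (x / s) ^ 2 = (|x| / s) ^ 2 := by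
    rw [div_pow, div_pow, sq_abs]
  rw [hxs] at hpos ⊢
  rw [← div_eq_mul_inv, le_div_iff₀ hpos]
  rcases le_or_gt |x| s with h | h
  · have h1 : Real.exp (-(n * M |x|)) ≤ 1 := by
      apply Real.exp_le_one_iff.2
      have : 0 ≤ (n : ℝ) * M |x| := by positivity
      linarith
    have h2 : (|x| / s) ^ 2 ≤ 1 := by
      apply pow_le_one₀ (by positivity)
      rw [div_le_one hs]
      exact h
    calc Real.exp (-(n * M |x|)) * (1 + (|x| / s) ^ 2) ≤ 1 * 2 := by
          apply mul_le_mul h1 (by linarith) (by positivity) (by norm_num)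
      _ ≤ 2 * 4 ^ m * (2 * m).factorial := by nlinarith
  · -- choose j
    have h1' : 1 ≤ |x| / s := by
      rw [le_div_iff₀ hs]; linarith
    rcases Nat.eq_zero_or_pos m with hm0 | hm0
    · exfalso
      subst hm0
      have := hgrow s hs ?_
      · have hs1 : (s : ℝ) / 2 ^ 0 = s := by simp
        rw [hs1] at this
        have hMs : M s ≤ 0 := by linarith
        have : (n : ℝ) * M s ≤ 0 := mul_nonpos_of_nonneg_of_nonpos (by positivity) hMs
        linarith
      · exact (hmono (Set.mem_Ici.2 hs.le) (Set.mem_Ici.2 (abs_nonneg x)) h.le).trans hx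
    have h2m : (1 : ℝ) < 2 ^ m := one_lt_pow₀ (by norm_num) hm0.ne'
    obtain ⟨j, hj1, hj2⟩ := exists_nat_pow_near h1' h2m
    have hj3 : (2 ^ m) ^ j * s ≤ |x| := by
      rw [le_div_iff₀ hs] at hj1
      exact hj1
    have hM1 : M ((2 ^ m) ^ j * s) ≤ M |x| :=
      hmono (Set.mem_Ici.2 (by positivity)) (Set.mem_Ici.2 (abs_nonneg x)) hj3
    have hM2 := orl_iter M hmono m hgrow s hs j (hM1.trans hx)
    have hM3 : (2 : ℝ) ^ j ≤ n * M |x| := by
      calc (2 : ℝ) ^ j = 2 ^ j * 1 := by ring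
        _ ≤ 2 ^ j * (n * M s) := by gcongr
        _ = n * (2 ^ j * M s) := by ring
        _ ≤ n * M |x| := by gcongr; exact hM2.trans hM1
    have h5 : Real.exp (-(n * M |x|)) ≤ Real.exp (-(2 ^ j)) := by
      apply Real.exp_le_exp.2
      linarith
    have h6 : Real.exp (-((2 : ℝ) ^ j)) * ((2 : ℝ) ^ j) ^ (2 * m) ≤ (2 * m).factorial := by
      have := Real.pow_div_factorial_le_exp (x := (2 : ℝ) ^ j) (by positivity) (2 * m)
      rw [div_le_iff₀ (by positivity)] at this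
      rw [Real.exp_neg, inv_mul_le_iff₀ (Real.exp_pos _)]
      linarith
    have h7 : (|x| / s) ^ 2 ≤ 4 ^ m * ((2 : ℝ) ^ j) ^ (2 * m) := by
      have : |x| / s ≤ 2 ^ m * ((2 : ℝ) ^ j) ^ m := by
        refine hj2.le.trans (le_of_eq ?_)
        rw [pow_succ, mul_comm, ← pow_mul, ← pow_mul, mul_comm m j]
      calc (|x| / s) ^ 2 ≤ (2 ^ m * ((2 : ℝ) ^ j) ^ m) ^ 2 := by gcongr
        _ = 4 ^ m * ((2 : ℝ) ^ j) ^ (2 * m) := by
          rw [mul_pow, ← pow_mul, ← pow_mul, mul_comm m 2, pow_mul 2 2 m]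
          norm_num
    have h8 : 1 + (|x| / s) ^ 2 ≤ 2 * 4 ^ m * ((2 : ℝ) ^ j) ^ (2 * m) := by
      have h9 : (1 : ℝ) ≤ 4 ^ m * ((2 : ℝ) ^ j) ^ (2 * m) := by
        refine le_trans ?_ h7
        exact one_le_pow₀ h1'
      linarith
    calc Real.exp (-(n * M |x|)) * (1 + (|x| / s) ^ 2)
        ≤ Real.exp (-(2 ^ j)) * (2 * 4 ^ m * ((2 : ℝ) ^ j) ^ (2 * m)) := by
          apply mul_le_mul h5 h8 (by positivity) (Real.exp_pos _).le
      _ = 2 * 4 ^ m * (Real.exp (-((2 : ℝ) ^ j)) * ((2 : ℝ) ^ j) ^ (2 * m)) := by ring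
      _ ≤ 2 * 4 ^ m * (2 * m).factorial := by gcongr

/-- upper bound for the volume of the Orlicz ball -/
lemma orl_vol (M : ℝ → ℝ) (hmono : MonotoneOn M (Set.Ici 0)) (hM0 : M 0 = 0) (m : ℕ)
    (hgrow : ∀ t, 0 < t → M t ≤ 1 → 2 * M (t / 2 ^ m) ≤ M t) (s : ℝ) (hs : 0 < s)
    (n : ℕ) (hn : 1 ≤ n * M s) :
    volume {x : Fin n → ℝ | ∑ i, M |x i| ≤ 1} ≤
      ENNReal.ofReal ((Real.exp 1 * (2 * 4 ^ m * (2 * m).factorial) * Real.pi * s) ^ n) := by
  set D : ℝ := 2 * 4 ^ m * (2 * m).factorial with hD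
  have hDpos : 0 < D := by positivity
  set F : ℝ → ℝ := fun x => (Real.exp 1 * D) * (1 + (x / s) ^ 2)⁻¹ with hF
  have hFpos : ∀ x, 0 ≤ F x := fun x => by simp only [hF]; positivity
  have hint : ∫ x, F x = Real.exp 1 * D * Real.pi * s := by
    simp only [hF]
    rw [integral_const_mul]
    have := MeasureTheory.Measure.integral_comp_div (fun y : ℝ => (1 + y ^ 2)⁻¹) s
    rw [this, integral_univ_inv_one_add_sq, abs_of_pos hs, smul_eq_mul]
    ring
  have hsub : {x : Fin n → ℝ | ∑ i, M |x i| ≤ 1} ⊆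
      {x : Fin n → ℝ | (1 : ℝ≥0∞) ≤ ENNReal.ofReal (∏ i, F (x i))} := by
    intro x hx
    rw [Set.mem_ofPred_eq] at hx ⊢
    have hnn : ∀ y : ℝ, 0 ≤ M |y| := fun y => by
      rw [← hM0]
      exact hmono (Set.mem_Ici.2 le_rfl) (Set.mem_Ici.2 (abs_nonneg y)) (abs_nonneg y)
    have hx1 : ∀ i, M |x i| ≤ 1 := fun i =>
      (Finset.single_le_sum (f := fun i => M |x i|) (fun j _ => hnn _) (Finset.mem_univ i)).trans hx
    have h1 : (1 : ℝ) ≤ ∏ i, F (x i) := by
      have h2 : ∏ i : Fin n, (Real.exp 1 * Real.exp (-(n * M |x i|))) ≤ ∏ i, F (x i) := by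
        apply Finset.prod_le_prod
        · intro i _; positivity
        · intro i _
          simp only [hF]
          rw [mul_assoc]
          exact mul_le_mul_of_nonneg_left (orl_point M hmono hM0 m hgrow s hs n hn _ (hx1 i))
            (Real.exp_pos _).le
      refine le_trans ?_ h2
      rw [Finset.prod_mul_distrib, Finset.prod_const, ← Real.exp_sum, Finset.card_univ,
        Fintype.card_fin, ← Real.exp_nat_mul, ← Real.exp_add]
      apply Real.one_le_exp
      rw [Finset.sum_neg_distrib, ← Finset.mul_sum]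
      have : (n : ℝ) * ∑ i, M |x i| ≤ n * 1 := by gcongr
      linarith
    rw [← ENNReal.ofReal_one]
    exact ENNReal.ofReal_le_ofReal h1
  have hIntF : Integrable F := by
    simp only [hF]
    apply Integrable.const_mul
    exact (integrable_inv_one_add_sq).comp_div hs.ne'
  calc volume {x : Fin n → ℝ | ∑ i, M |x i| ≤ 1}
      ≤ volume {x : Fin n → ℝ | (1 : ℝ≥0∞) ≤ ENNReal.ofReal (∏ i, F (x i))} :=
        measure_mono hsub
    _ ≤ ∫⁻ x : Fin n → ℝ, ENNReal.ofReal (∏ i, F (x i)) := by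
        have := mul_meas_ge_le_lintegral₀ (μ := (volume : Measure (Fin n → ℝ)))
          (f := fun x => ENNReal.ofReal (∏ i, F (x i))) ?_ 1
        · simpa using this
        · apply AEMeasurable.ennreal_ofReal
          apply Measurable.aemeasurable
          simp only [hF]
          fun_prop
    _ = ENNReal.ofReal (∫ x : Fin n → ℝ, ∏ i, F (x i)) := by
        rw [ofReal_integral_eq_lintegral_ofReal]
        · exact Integrable.fintype_prod (f := fun _ => F) (fun _ => hIntF)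
        · exact Filter.Eventually.of_forall (fun x => Finset.prod_nonneg (fun i _ => hFpos _))
    _ = _ := by
        have h1 := integral_fintype_prod_volume_eq_pow (ι := Fin n) F
        rw [h1, hint, Fintype.card_fin]

/-- a cube in the convex hull of the Orlicz ball -/
lemma orl_cube (M : ℝ → ℝ) (hmono : MonotoneOn M (Set.Ici 0)) (hM0 : M 0 = 0) (t : ℝ)
    (ht : 0 < t) (n k : ℕ) (hn : 0 < n) (hk : 0 < k) (hkn : k ≤ n) (hkM : k * M t ≤ 1) :
    Metric.closedBall (0 : Fin n → ℝ) (k * t / n) ⊆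
      convexHull ℝ {x : Fin n → ℝ | ∑ i, M |x i| ≤ 1} := by
  classical
  have : NeZero n := ⟨hn.ne'⟩
  intro x hx
  rw [mem_closedBall_zero_iff] at hx
  have hx' : ∀ i, |x i| ≤ k * t / n := fun i => (norm_le_pi_norm x i).trans hx
  set T : Finset (Fin n) := Finset.univ.filter (fun j => j.val < k) with hT
  have hTcard : T.card = k := by
    rw [hT, Fin.card_filter_val_lt]
    exact min_eq_right hkn
  set a : Fin n → Fin n → ℝ := fun j i => if i - j ∈ T then (n / k : ℝ) * x i else 0 with ha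
  have hn' : (0 : ℝ) < n := by exact_mod_cast hn
  have hk' : (0 : ℝ) < k := by exact_mod_cast hk
  have hcount1 : ∀ i : Fin n, (Finset.univ.filter (fun j : Fin n => i - j ∈ T)).card = k := by
    intro i
    rw [← hTcard]
    refine Finset.card_bij (fun j _ => i - j) ?_ ?_ ?_
    · intro j hj
      exact (Finset.mem_filter.1 hj).2
    · intro j1 _ j2 _ h
      exact sub_right_injective h
    · intro b hb
      exact ⟨i - b, by simpa using hb, by abel⟩
  have hcount2 : ∀ j : Fin n, (Finset.univ.filter (fun i : Fin n => i - j ∈ T)).card = k := by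
    intro j
    rw [← hTcard]
    refine Finset.card_bij (fun i _ => i - j) ?_ ?_ ?_
    · intro i hi
      exact (Finset.mem_filter.1 hi).2
    · intro i1 _ i2 _ h
      exact sub_left_injective h
    · intro b hb
      exact ⟨b + j, by simpa using hb, by abel⟩
  have hmem : ∀ j, a j ∈ {x : Fin n → ℝ | ∑ i, M |x i| ≤ 1} := by
    intro j
    rw [Set.mem_ofPred_eq]
    calc ∑ i, M |a j i| ≤ ∑ i : Fin n, (if i - j ∈ T then M t else 0) := by
          apply Finset.sum_le_sum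
          intro i _
          simp only [ha]
          split_ifs with h
          · apply hmono (Set.mem_Ici.2 (abs_nonneg _)) (Set.mem_Ici.2 ht.le)
            rw [abs_mul, abs_of_pos (by positivity)]
            have := hx' i
            calc (n / k : ℝ) * |x i| ≤ (n / k : ℝ) * (k * t / n) := by gcongr
              _ = t := by field_simp
          · rw [abs_zero, hM0]
      _ = k * M t := by
          rw [← Finset.sum_filter, Finset.sum_const, hcount2 j, nsmul_eq_mul]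
      _ ≤ 1 := hkM
  have hx_eq : x = ∑ j : Fin n, (1 / n : ℝ) • a j := by
    funext i
    rw [Finset.sum_apply]
    simp only [Pi.smul_apply, smul_eq_mul, ha]
    rw [← Finset.mul_sum, ← Finset.sum_filter, Finset.sum_const, hcount1 i, nsmul_eq_mul]
    field_simp
  rw [hx_eq]
  have hconv : Convex ℝ (convexHull ℝ {x : Fin n → ℝ | ∑ i, M |x i| ≤ 1}) := convex_convexHull _ _
  refine hconv.sum_mem (fun j _ => by positivity) ?_ (fun j _ => subset_convexHull _ _ (hmem j))
  rw [Finset.sum_const, Finset.card_univ, Fintype.card_fin, nsmul_eq_mul]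
  field_simp

section

variable {X : Type u} [AddCommGroup X] [Module ℝ X] [UniformSpace X] [IsUniformAddGroup X]
  [ContinuousSMul ℝ X] {Y : Type v} [NormedAddCommGroup Y] [NormedSpace ℝ Y]

omit [ContinuousSMul ℝ X] in
/-- growth condition from local boundedness -/
lemma orl_growth (M : ℝ → ℝ) (hM0 : M 0 = 0)
    (hMpos : ∀ t, 0 < t → 0 < M t) {B U : Set X} (hB : Bornology.IsVonNBounded ℝ B)
    (hU : U ∈ 𝓝 (0 : X))
    (hX : ∀ n : ℕ, ∃ (σ : (Fin n → ℝ) →ₗ[ℝ] X) (π : X →L[ℝ] (Fin n → ℝ)), (∀ x, π (σ x) = x) ∧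
      (∀ a : Fin n → ℝ, ∑ i, M |a i| ≤ 1 → σ a ∈ B) ∧ ∀ u ∈ U, ∑ i, M |π u i| ≤ 1) :
    ∃ m : ℕ, ∀ t, 0 < t → M t ≤ 1 → 2 * M (t / 2 ^ m) ≤ M t := by
  classical
  obtain ⟨U1, hU1, hq⟩ := exists_nhds_zero_quarter hU
  obtain ⟨r, hr⟩ := absorbs_iff_norm.1 (hB hU1)
  obtain ⟨m, hm⟩ := pow_unbounded_of_one_lt r (one_lt_two : (1 : ℝ) < 2)
  have hrm : r ≤ ‖(2 : ℝ) ^ m‖ := by
    rw [Real.norm_eq_abs, abs_of_pos (by positivity)]
    exact hm.le
  have hsub := hr _ hrm
  refine ⟨m, fun t ht hMt => ?_⟩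
  have hMtpos := hMpos t ht
  set k : ℕ := ⌊1 / M t⌋₊ with hk
  have h1M : 1 ≤ 1 / M t := by rw [le_div_iff₀ hMtpos]; linarith
  have hk1 : 1 ≤ k := Nat.le_floor (by exact_mod_cast h1M)
  have hkM : k * M t ≤ 1 := by
    have := Nat.floor_le (a := 1 / M t) (by positivity)
    rw [le_div_iff₀ hMtpos] at this
    exact this
  have hk2 : 1 / M t ≤ 2 * k := by
    have h1 := Nat.lt_floor_add_one (1 / M t)
    rw [← hk] at h1
    have h2 : (1 : ℝ) ≤ k := by exact_mod_cast hk1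
    linarith
  obtain ⟨σ, π, hπσ, hσB, hπU⟩ := hX (4 * k)
  set e : Fin 4 × Fin k ≃ Fin (4 * k) := finProdFinEquiv with he
  set a : Fin 4 → Fin (4 * k) → ℝ := fun j i => if (e.symm i).1 = j then t else 0 with ha
  have haB : ∀ j, σ (a j) ∈ B := by
    intro j
    apply hσB
    rw [← e.sum_comp]
    simp only [ha, Equiv.symm_apply_apply]
    rw [Fintype.sum_prod_type]
    have h1 : ∀ j' : Fin 4, (∑ _l : Fin k, M |if j' = j then t else 0|)
        = if j' = j then k * M t else 0 := by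
      intro j'
      rw [Finset.sum_const, Finset.card_univ, Fintype.card_fin, nsmul_eq_mul]
      split_ifs
      · rw [abs_of_pos ht]
      · rw [abs_zero, hM0, mul_zero]
    rw [Finset.sum_congr rfl (fun j' _ => h1 j')]
    simpa using hkM
  have hw : ∀ j, ∃ w ∈ U1, (2 : ℝ) ^ m • w = σ (a j) := fun j =>
    Set.mem_smul_set.1 (hsub (haB j))
  choose w hwU hw using hw
  have hu := hq (hwU 0) (hwU 1) (hwU 2) (hwU 3)
  have hsum := hπU _ hu
  have hval : ∀ i, π (w 0 + w 1 + w 2 + w 3) i = t / 2 ^ m := by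
    intro i
    have h1 : (2 : ℝ) ^ m • (w 0 + w 1 + w 2 + w 3) = σ (a 0 + a 1 + a 2 + a 3) := by
      simp only [smul_add, map_add, hw]
    have h2 : (2 : ℝ) ^ m * π (w 0 + w 1 + w 2 + w 3) i = (a 0 + a 1 + a 2 + a 3) i := by
      have := congrArg (fun v => π v i) h1
      simp only [map_smul, hπσ, Pi.smul_apply, smul_eq_mul] at this
      exact this
    have h3 : (a 0 + a 1 + a 2 + a 3) i = t := by
      simp only [ha, Pi.add_apply]
      generalize (e.symm i).1 = j
      fin_cases j <;> simp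
    rw [h3] at h2
    rw [eq_div_iff (by positivity)]
    linarith
  rw [Finset.sum_congr rfl (fun i _ => by rw [hval i])] at hsum
  rw [Finset.sum_const, Finset.card_univ, Fintype.card_fin, nsmul_eq_mul,
    abs_of_pos (by positivity)] at hsum
  push_cast at hsum
  have hpos := hMpos (t / 2 ^ m) (by positivity)
  have h9 : 2 * (1 / M t) * M (t / 2 ^ m) ≤ 1 := by
    refine le_trans ?_ hsum
    apply mul_le_mul_of_nonneg_right _ hpos.le
    linarith
  have h10 : 2 * (1 / M t) * M (t / 2 ^ m) = 2 * M (t / 2 ^ m) / M t := by ring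
  rw [h10, div_le_one hMtpos] at h9
  exact h9

/-- **Orlicz spaces.** -/
theorem orlicz {f : X → Y} {g : Y → X} (hf : UniformContinuous f) (hg : UniformContinuous g)
    (hgf : ∀ x, g (f x) = x)
    (M : ℝ → ℝ) (hmono : MonotoneOn M (Set.Ici 0)) (hM0 : M 0 = 0)
    (hMpos : ∀ t, 0 < t → 0 < M t) {B U : Set X} (hB : Bornology.IsVonNBounded ℝ B)
    (hU : U ∈ 𝓝 (0 : X))
    (hX : ∀ n : ℕ, ∃ (σ : (Fin n → ℝ) →ₗ[ℝ] X) (π : X →L[ℝ] (Fin n → ℝ)), (∀ x, π (σ x) = x) ∧
      (∀ a : Fin n → ℝ, ∑ i, M |a i| ≤ 1 → σ a ∈ B) ∧ ∀ u ∈ U, ∑ i, M |π u i| ≤ 1) :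
    ∃ K : ℝ, ∀ s t, 0 < s → s ≤ t → M t ≤ 1 → M s / s ≤ K * (M t / t) := by
  obtain ⟨m, hgrow⟩ := orl_growth M hM0 hMpos hB hU hX
  obtain ⟨C, hC⟩ := vol_ratio hf hg hgf hB hU
  set D : ℝ := Real.exp 1 * (2 * 4 ^ m * (2 * m).factorial) * Real.pi with hD
  have hDpos : 0 < D := by positivity
  refine ⟨2 * C * D, ?_⟩
  intro s t hs hst hMt
  have ht : 0 < t := lt_of_lt_of_le hs hst
  have hMs := hMpos s hs
  have hMtp := hMpos t ht
  have hMst : M s ≤ M t := hmono (Set.mem_Ici.2 hs.le) (Set.mem_Ici.2 ht.le) hst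
  set n : ℕ := ⌈1 / M s⌉₊ with hn
  set k : ℕ := ⌊1 / M t⌋₊ with hk
  have h1s : 1 ≤ 1 / M s := by rw [le_div_iff₀ hMs]; linarith
  have h1t : 1 ≤ 1 / M t := by rw [le_div_iff₀ hMtp]; linarith
  have hk1 : 1 ≤ k := Nat.le_floor (by exact_mod_cast h1t)
  have hkM : k * M t ≤ 1 := by
    have := Nat.floor_le (a := 1 / M t) (by positivity)
    rw [le_div_iff₀ hMtp] at this
    exact this
  have hk2 : 1 / M t ≤ 2 * k := by
    have h1 := Nat.lt_floor_add_one (1 / M t)
    rw [← hk] at h1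
    have h2 : (1 : ℝ) ≤ k := by exact_mod_cast hk1
    linarith
  have hn1 : 1 ≤ n * M s := by
    have := Nat.le_ceil (1 / M s)
    rw [div_le_iff₀ hMs] at this
    exact this
  have hn2 : (n : ℝ) ≤ 2 / M s := by
    have := Nat.ceil_lt_add_one (a := 1 / M s) (by positivity)
    rw [← hn] at this
    have e : 2 / M s = 1 / M s + 1 / M s := by ring
    rw [e]
    linarith
  have hnpos : 0 < n := by
    rw [hn]
    exact Nat.ceil_pos.2 (by positivity)
  have hkn : k ≤ n := by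
    have h1 : (k : ℝ) ≤ n := by
      calc (k : ℝ) ≤ 1 / M t := Nat.floor_le (by positivity)
        _ ≤ 1 / M s := one_div_le_one_div_of_le hMs hMst
        _ ≤ n := Nat.le_ceil _
    exact_mod_cast h1
  obtain ⟨σ, π, hπσ, hσB, hπU⟩ := hX n
  have h1 := hC n σ π hπσ
  have h2 : ENNReal.ofReal ((2 * (k * t / n)) ^ n) ≤ volume (convexHull ℝ (σ ⁻¹' B)) := by
    have h3 := orl_cube M hmono hM0 t ht n k hnpos hk1 hkn hkM
    have h4 : {x : Fin n → ℝ | ∑ i, M |x i| ≤ 1} ⊆ σ ⁻¹' B := fun a ha => hσB a ha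
    have h5 := measure_mono (μ := (volume : Measure (Fin n → ℝ))) (h3.trans (convexHull_mono h4))
    rw [Real.volume_pi_closedBall _ (by positivity), Fintype.card_fin] at h5
    exact h5
  have h6 : volume (π '' U) ≤ ENNReal.ofReal ((D * s) ^ n) := by
    refine le_trans (measure_mono ?_) (orl_vol M hmono hM0 m hgrow s hs n hn1)
    rintro _ ⟨u, hu, rfl⟩
    exact hπU u hu
  have h7 : ENNReal.ofReal ((2 * (k * t / n)) ^ n) ≤ ENNReal.ofReal ((C * (D * s)) ^ n) := by
    refine h2.trans (h1.trans ?_)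
    rw [mul_pow, ENNReal.ofReal_mul (by positivity), ENNReal.ofReal_pow (by positivity),
      ENNReal.ofReal_coe_nnreal]
    gcongr
  have h8 : 2 * (k * t / n) ≤ C * (D * s) := by
    rw [ENNReal.ofReal_le_ofReal_iff (by positivity)] at h7
    exact le_of_pow_le_pow_left₀ hnpos.ne' (by positivity) h7
  have hnpos' : (0 : ℝ) < n := by exact_mod_cast hnpos
  have h9 : t * M s / (2 * M t) ≤ 2 * (k * t / n) := by
    have h10 : 1 / (2 * M t) ≤ k := by
      have : 1 / (2 * M t) = (1 / M t) / 2 := by ring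
      rw [this]; linarith
    have h11 : M s / 2 ≤ 1 / n := by
      rw [le_div_iff₀ hMs] at hn2
      rw [le_div_iff₀ hnpos']
      linarith
    calc t * M s / (2 * M t) = 2 * ((1 / (2 * M t)) * t * (M s / 2)) := by
          field_simp
      _ ≤ 2 * (k * t * (1 / n)) := by gcongr
      _ = _ := by ring
  have h12 : t * M s / (2 * M t) ≤ C * (D * s) := h9.trans h8
  rw [div_le_iff₀ (by positivity)] at h12
  rw [div_le_iff₀ hs]
  have : 2 * C * D * (M t / t) * s = (C * (D * s) * (2 * M t)) / t := by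
    field_simp
  rw [this, le_div_iff₀ ht]
  linarith

end

end W68deb0
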