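import Mathlib

/-!
The counting step: few patterns, each pattern pins down its colouring up to few errors.
-/

namespace W68deb0

open Finset

lemma card_pi_ite {n q : ℕ} (T : Finset (Fin n)) (A B : Fin n → Finset (Fin q)) (x y : ℕ)
    (hA : ∀ i ∈ T, #(A i) ≤ x) (hB : ∀ i ∉ T, #(B i) ≤ y) :
    #(Fintype.piFinset (fun i => if i ∈ T then A i else B i)) ≤ x ^ #T * y ^ (n - #T) := by
  rw [Fintype.card_piFinset]
  have h : ∀ i ∈ (Finset.univ : Finset (Fin n)), #(if i ∈ T then A i else B i)
      ≤ (if i ∈ T then x else y) := by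
    intro i _
    by_cases hi : i ∈ T
    · simpa [hi] using hA i hi
    · simpa [hi] using hB i hi
  refine (Finset.prod_le_prod' h).trans (le_of_eq ?_)
  rw [Finset.prod_ite, Finset.prod_const, Finset.prod_const]
  have e1 : #(Finset.univ.filter (fun i => i ∈ T)) = #T := by
    congr 1
    ext i; simp
  have e2 : #(Finset.univ.filter (fun i => i ∉ T)) = n - #T := by
    have : Finset.univ.filter (fun i => i ∉ T) = Tᶜ := by
      ext i; simp
    rw [this, Finset.card_compl, Fintype.card_fin]
  rw [e1, e2]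

lemma ball_count (n r Q q : ℕ) (hQ : 1 ≤ Q) (hq : q = Q ^ r) (J0 : Finset (Fin n))
    (y0 : Fin n → Fin q) :
    #(Finset.univ.filter (fun y : Fin n → Fin q =>
      r * #(J0.filter (fun i => y i ≠ y0 i)) ≤ #J0)) ≤ 2 ^ #J0 * (q ^ (n - #J0) * Q ^ #J0) := by
  classical
  have hsub : Finset.univ.filter (fun y : Fin n → Fin q =>
      r * #(J0.filter (fun i => y i ≠ y0 i)) ≤ #J0) ⊆
      (J0.powerset.filter (fun D => r * #D ≤ #J0)).biUnion
        (fun D => Fintype.piFinset (fun i => if i ∈ J0 \ D then {y0 i} else Finset.univ)) := by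
    intro y hy
    rw [Finset.mem_filter] at hy
    rw [Finset.mem_biUnion]
    refine ⟨J0.filter (fun i => y i ≠ y0 i), ?_, ?_⟩
    · rw [Finset.mem_filter, Finset.mem_powerset]
      exact ⟨Finset.filter_subset _ _, hy.2⟩
    · rw [Fintype.mem_piFinset]
      intro i
      by_cases hi : i ∈ J0 \ J0.filter (fun i => y i ≠ y0 i)
      · rw [if_pos hi, Finset.mem_singleton]
        rw [Finset.mem_sdiff, Finset.mem_filter] at hi
        by_contra hne
        exact hi.2 ⟨hi.1, hne⟩
      · rw [if_neg hi]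
        exact Finset.mem_univ _
  refine (Finset.card_le_card hsub).trans (Finset.card_biUnion_le.trans ?_)
  have hb : ∀ D ∈ J0.powerset.filter (fun D => r * #D ≤ #J0),
      #(Fintype.piFinset (fun i => if i ∈ J0 \ D then {y0 i} else
        (Finset.univ : Finset (Fin q)))) ≤ q ^ (n - #J0) * Q ^ #J0 := by
    intro D hD
    rw [Finset.mem_filter, Finset.mem_powerset] at hD
    have h1 := card_pi_ite (J0 \ D) (fun i => {y0 i})
      (fun _ => (Finset.univ : Finset (Fin q))) 1 q (by simp) (by simp)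
    refine h1.trans ?_
    rw [one_pow, one_mul]
    have hc : #(J0 \ D) = #J0 - #D := Finset.card_sdiff_of_subset hD.1
    have hDle : #D ≤ #J0 := Finset.card_le_card hD.1
    have hJn : #J0 ≤ n := by simpa using Finset.card_le_univ J0
    have : n - #(J0 \ D) = (n - #J0) + #D := by omega
    rw [this, pow_add]
    refine Nat.mul_le_mul_left _ ?_
    rw [hq, ← pow_mul]
    exact Nat.pow_le_pow_right hQ hD.2
  refine (Finset.sum_le_card_nsmul _ _ _ hb).trans ?_
  rw [smul_eq_mul]
  refine Nat.mul_le_mul_right _ ?_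
  refine (Finset.card_filter_le _ _).trans ?_
  rw [Finset.card_powerset]

theorem count (n m Q r b q : ℕ) (hr : 1 ≤ r) (hQ : 1 ≤ Q) (hq : q = Q ^ r)
    (J : (Fin n → Fin q) → Finset (Fin n))
    (a : (Fin n → Fin q) → Fin n → Fin (m + 1))
    (h1 : ∀ y i, i ∉ J y → a y i = 0 ∨ a y i = Fin.last m)
    (h2 : ∀ y y', J y = J y' → a y = a y' → r * #((J y).filter (fun i => y i ≠ y' i)) ≤ #(J y))
    (h3 : ∀ y, b ≤ #(J y)) (h4 : m + 1 ≤ Q ^ (r - 1)) :
    (Q ^ (r - 1)) ^ b ≤ 4 ^ n * (m + 1) ^ b := by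
  classical
  have hqpos : 0 < q := by rw [hq]; exact Nat.pow_pos hQ
  have hqQ : q = Q * Q ^ (r - 1) := by
    rw [hq, ← pow_succ']
    congr 1
    omega
  -- fibre bound
  have hfib : ∀ J0 : Finset (Fin n), b ≤ #J0 →
      #(Finset.univ.filter (fun y => J y = J0)) ≤
        (2 ^ #J0 * (q ^ (n - #J0) * Q ^ #J0)) * ((m + 1) ^ #J0 * 2 ^ (n - #J0)) := by
    intro J0 _
    set A0 : Finset (Fin n → Fin (m + 1)) :=
      Fintype.piFinset (fun i => if i ∈ J0 then Finset.univ else {0, Fin.last m}) with hA0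
    have hmaps : ∀ y ∈ Finset.univ.filter (fun y => J y = J0), a y ∈ A0 := by
      intro y hy
      rw [Finset.mem_filter] at hy
      rw [hA0, Fintype.mem_piFinset]
      intro i
      by_cases hi : i ∈ J0
      · rw [if_pos hi]; exact Finset.mem_univ _
      · rw [if_neg hi]
        have := h1 y i (by rw [hy.2]; exact hi)
        simpa using this
    have hcard : #A0 ≤ (m + 1) ^ #J0 * 2 ^ (n - #J0) := by
      refine card_pi_ite J0 _ _ (m + 1) 2 (by simp) ?_
      intro i _
      exact Finset.card_le_two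
    have hle := Finset.card_le_mul_card_image_of_maps_to (s := Finset.univ.filter (fun y => J y = J0))
      (t := A0) (f := a) hmaps (2 ^ #J0 * (q ^ (n - #J0) * Q ^ #J0)) (by
        intro α _
        by_cases hem : ((Finset.univ.filter (fun y => J y = J0)).filter (fun y => a y = α)).Nonempty
        · obtain ⟨y0, hy0⟩ := hem
          rw [Finset.mem_filter, Finset.mem_filter] at hy0
          refine le_trans (Finset.card_le_card ?_) (ball_count n r Q q hQ hq J0 y0)
          intro y hy
          rw [Finset.mem_filter, Finset.mem_filter] at hy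
          rw [Finset.mem_filter]
          refine ⟨Finset.mem_univ _, ?_⟩
          have := h2 y y0 (by rw [hy.1.2, hy0.1.2]) (by rw [hy.2, hy0.2])
          rwa [hy.1.2] at this
        · rw [Finset.not_nonempty_iff_eq_empty] at hem
          rw [hem]
          simp)
    refine hle.trans ?_
    exact Nat.mul_le_mul_left _ hcard
  have hfib2 : ∀ J0 : Finset (Fin n),
      (Q ^ (r - 1)) ^ b * #(Finset.univ.filter (fun y => J y = J0)) ≤
        2 ^ n * (m + 1) ^ b * q ^ n := by
    intro J0
    by_cases hb : b ≤ #J0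
    · have hJn : #J0 ≤ n := by simpa using Finset.card_le_univ J0
      set k := #J0 with hk
      refine (Nat.mul_le_mul_left _ (hfib J0 hb)).trans ?_
      obtain ⟨c, hc⟩ := Nat.exists_eq_add_of_le hb
      obtain ⟨d, hd⟩ := Nat.exists_eq_add_of_le hJn
      have hnk : n - k = d := by omega
      rw [← hk, hnk]
      have e1 : (Q ^ (r - 1)) ^ b * (2 ^ k * (q ^ d * Q ^ k) * ((m + 1) ^ k * 2 ^ d))
          = (2 ^ k * 2 ^ d) * (m + 1) ^ b * (q ^ d * Q ^ k * (Q ^ (r - 1)) ^ b) * (m + 1) ^ c := by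
        rw [hc, pow_add (m + 1)]
        ring
      rw [e1]
      have e2 : (m + 1) ^ c ≤ (Q ^ (r - 1)) ^ c := Nat.pow_le_pow_left h4 c
      refine (Nat.mul_le_mul_left _ e2).trans (le_of_eq ?_)
      have e3 : (2 : ℕ) ^ k * 2 ^ d = 2 ^ n := by rw [← pow_add, hd]
      have e4 : q ^ n = q ^ d * (Q ^ k * (Q ^ (r - 1)) ^ k) := by
        rw [← mul_pow, ← hqQ, ← pow_add]
        congr 1
        omega
      have e5 : (Q ^ (r - 1)) ^ k = (Q ^ (r - 1)) ^ b * (Q ^ (r - 1)) ^ c := by
        rw [← pow_add, ← hc]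
      rw [e3, e4, e5]
      ring
    · have hempty : Finset.univ.filter (fun y => J y = J0) = ∅ := by
        rw [Finset.filter_eq_empty_iff]
        intro y _ hy
        exact hb (hy ▸ h3 y)
      rw [hempty]
      simp
  have htot : q ^ n = ∑ J0 ∈ (Finset.univ : Finset (Finset (Fin n))),
      #(Finset.univ.filter (fun y => J y = J0)) := by
    have := Finset.card_eq_sum_card_fiberwise (f := J)
      (s := (Finset.univ : Finset (Fin n → Fin q))) (t := Finset.univ) (by simp)
    rw [← this]
    simp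
  have hfin : (Q ^ (r - 1)) ^ b * q ^ n ≤ (4 ^ n * (m + 1) ^ b) * q ^ n := by
    calc (Q ^ (r - 1)) ^ b * q ^ n = ∑ J0 ∈ (Finset.univ : Finset (Finset (Fin n))),
        (Q ^ (r - 1)) ^ b * #(Finset.univ.filter (fun y => J y = J0)) := by
          rw [← Finset.mul_sum, ← htot]
      _ ≤ ∑ J0 ∈ (Finset.univ : Finset (Finset (Fin n))), 2 ^ n * (m + 1) ^ b * q ^ n :=
          Finset.sum_le_sum (fun J0 _ => hfib2 J0)
      _ = 2 ^ n * (2 ^ n * (m + 1) ^ b * q ^ n) := by
          rw [Finset.sum_const]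
          simp
      _ = (4 ^ n * (m + 1) ^ b) * q ^ n := by
          have : (4 : ℕ) ^ n = 2 ^ n * 2 ^ n := by
            rw [← mul_pow]
            norm_num
          rw [this]
          ring
  exact Nat.le_of_mul_le_mul_right hfin (Nat.pow_pos hqpos)

end W68deb0
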