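import Mathlib
import Pool.Agent.W_68deb0.Cube
import Pool.Agent.W_68deb0.Count

/-!
The core incompatibility: a map from a fine grid to `ℝⁿ` which fixes the vertices, is small-scale
continuous, and is controlled by `ℓ₁`-increments in the `p`-th power sense cannot exist.
-/

namespace W68deb0

open Finset

/-- Truncation to `[0,1]`. -/
noncomputable def clip (x : ℝ) : ℝ := max 0 (min x 1)

lemma clip_nonneg (x : ℝ) : 0 ≤ clip x := le_max_left _ _

lemma clip_le_one (x : ℝ) : clip x ≤ 1 := max_le zero_le_one (min_le_right _ _)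

lemma clip_lip (x y : ℝ) : |clip x - clip y| ≤ |x - y| := by
  unfold clip
  have h1 : |max 0 (min x 1) - max 0 (min y 1)| ≤ |min x 1 - min y 1| := by
    have := abs_max_sub_max_le_abs (min x 1) (min y 1) 0
    rwa [max_comm 0, max_comm 0]
  have h2 : |min x 1 - min y 1| ≤ |x - y| := by
    have := abs_min_sub_min_le_max x 1 y 1
    simpa using this
  exact h1.trans h2

lemma clip_zero : clip 0 = 0 := by simp [clip]

lemma clip_one : clip 1 = 1 := by simp [clip]

theorem geo (n M : ℕ) (hM : 0 < M) (η : ℝ) (k : (Fin n → ℕ) → Fin n → ℝ)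
    (h3 : ∀ x x' : Fin n → ℕ, (∀ i, x' i ≤ M) → (∀ i, x i ≤ x' i ∧ x' i ≤ x i + 1) →
      ∀ i, |k x i - k x' i| ≤ η)
    (T : Fin n → ℝ) (hT : ∀ i, 0 < T i ∧ T i ≤ 1) :
    ∃ ζ : Fin n → ℕ, (∀ i, ζ i ≤ M) ∧ ∀ i, (|clip (k ζ i) - T i| ≤ η + 1 / M) ∨
      (ζ i = 0 ∧ T i - (η + 1 / M) ≤ clip (k ζ i)) ∨
      (ζ i = M ∧ clip (k ζ i) ≤ T i + (η + 1 / M)) := by
  classical
  have hMR : (0 : ℝ) < M := by exact_mod_cast hM
  set cc : (Fin n → ℕ) → Fin n → ℕ := fun x i => min (x i - M) M with hcc
  set K : (Fin n → ℕ) → Fin n → ℝ := fun x i =>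
    clip (k (cc x) i) + ((x i : ℝ) - M - cc x i) / M with hK
  obtain ⟨z, _, hz⟩ := cube_lemma (3 * M)
    (fun (i : Fin n) (x : Fin n → ℕ) => if K x i < T i then (0 : ZMod 2) else 1) (by
      intro i y hy
      have hc : cc y i = 0 := by simp [hcc, hy]
      have : K y i < T i := by
        simp only [hK, hc, hy]
        have h1 := clip_le_one (k (cc y) i)
        have h2 : ((0 : ℕ) : ℝ) - M - ((0 : ℕ) : ℝ) = -M := by push_cast; ring
        rw [h2, neg_div, div_self hMR.ne']
        linarith [(hT i).1]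
      simp [this]) (by
      intro i y hy
      have hc : cc y i = M := by
        simp only [hcc, hy]; omega
      have : ¬ K y i < T i := by
        simp only [hK, hc, hy]
        have h1 := clip_nonneg (k (cc y) i)
        have h2 : ((3 * M : ℕ) : ℝ) - M - M = M := by push_cast; ring
        rw [h2, div_self hMR.ne']
        linarith [(hT i).2]
      simp [this])
  have hclose : ∀ u : Fin n → ℕ, (∀ j, z j ≤ u j ∧ u j ≤ z j + 1) → ∀ i,
      |K z i - K u i| ≤ η + 1 / M := by
    intro u hu i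
    have h1 : |clip (k (cc z) i) - clip (k (cc u) i)| ≤ η := by
      refine (clip_lip _ _).trans (h3 (cc z) (cc u) ?_ ?_ i)
      · intro j; simp only [hcc]; omega
      · intro j
        have := hu j
        simp only [hcc]; omega
    have h2 : |((z i : ℝ) - M - cc z i) / M - ((u i : ℝ) - M - cc u i) / M| ≤ 1 / M := by
      rw [← sub_div, abs_div, abs_of_pos hMR]
      refine div_le_div_of_nonneg_right ?_ hMR.le
      have hu' := hu i
      have e1 : u i + cc z i ≤ z i + cc u i + 1 := by simp only [hcc]; omega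
      have e2 : z i + cc u i ≤ u i + cc z i := by simp only [hcc]; omega
      have e1' : (u i : ℝ) + cc z i ≤ z i + cc u i + 1 := by exact_mod_cast e1
      have e2' : (z i : ℝ) + cc u i ≤ u i + cc z i := by exact_mod_cast e2
      rw [abs_le]
      constructor <;> linarith
    have e : K z i - K u i = (clip (k (cc z) i) - clip (k (cc u) i))
        + (((z i : ℝ) - M - cc z i) / M - ((u i : ℝ) - M - cc u i) / M) := by
      simp only [hK]; ring
    rw [e]
    exact (abs_add_le _ _).trans (add_le_add h1 h2)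
  have hKz : ∀ i, |K z i - T i| ≤ η + 1 / M := by
    intro i
    obtain ⟨u, w, hu, hw, h1, h2⟩ := hz i
    have hu1 : K u i < T i := by
      by_contra hcon
      simp [hcon] at h1
    have hw1 : ¬ K w i < T i := by
      intro hcon
      simp [hcon] at h2
    have a1 := abs_le.1 (hclose u hu i)
    have a2 := abs_le.1 (hclose w hw i)
    rw [abs_le]
    push Not at hw1
    constructor <;> linarith
  refine ⟨cc z, fun i => by simp only [hcc]; omega, fun i => ?_⟩
  have hKi := abs_le.1 (hKz i)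
  rcases lt_or_ge (z i) M with hlt | hge
  · right; left
    have hc : cc z i = 0 := by simp only [hcc]; omega
    refine ⟨hc, ?_⟩
    have h1 : ((z i : ℝ) - M - cc z i) / M ≤ 0 := by
      rw [hc]
      apply div_nonpos_of_nonpos_of_nonneg _ hMR.le
      have : (z i : ℝ) ≤ M := by exact_mod_cast hlt.le
      push_cast
      linarith
    have h2 : K z i = clip (k (cc z) i) + ((z i : ℝ) - M - cc z i) / M := rfl
    linarith
  · rcases le_or_gt (z i) (2 * M) with hle | hgt
    · left
      have hc : cc z i + M = z i := by simp only [hcc]; omega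
      have hcR : (cc z i : ℝ) + M = z i := by exact_mod_cast hc
      have h2 : K z i = clip (k (cc z) i) + ((z i : ℝ) - M - cc z i) / M := rfl
      have h3 : ((z i : ℝ) - M - cc z i) / M = 0 := by
        rw [← hcR]
        simp
      rw [h3, add_zero] at h2
      rw [← h2]
      exact hKz i
    · right; right
      have hc : cc z i = M := by simp only [hcc]; omega
      refine ⟨hc, ?_⟩
      have h1 : 0 ≤ ((z i : ℝ) - M - cc z i) / M := by
        rw [hc]
        apply div_nonneg _ hMR.le
        have : (2 * M : ℝ) ≤ z i := by exact_mod_cast hgt.le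
        linarith
      have h2 : K z i = clip (k (cc z) i) + ((z i : ℝ) - M - cc z i) / M := rfl
      linarith

/-- The fixed-parameter version of the core statement. -/
theorem core_param (p : ℝ) (hp0 : 0 < p) (hp1 : p ≤ 1) (A : ℝ) (hA : 1 ≤ A)
    (r t m Q q b n M : ℕ) (hr : 1 ≤ r) (hQ : 1 ≤ Q) (hq : q = Q ^ r)
    (ht : 2 * (8 * A + 1) ≤ t) (hm1 : 1 ≤ m) (hm : 2 * r * A * (4 * q) ^ p ≤ m)
    (hbig : 4 ^ t * (m + 1) < Q ^ (r - 1)) (hn : n = t * b) (hb16 : 16 ≤ b) (hbm : m ≤ b)
    (hM : 16 * q ≤ M) (k : (Fin n → ℕ) → Fin n → ℝ)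
    (h1 : ∀ v : Fin n → ℕ, (∀ i, v i = 0 ∨ v i = M) → ∀ i, k v i = if v i = M then 1 else 0)
    (h2 : ∀ x x' : Fin n → ℕ, (∀ i, x i ≤ M) → (∀ i, x' i ≤ M) →
      ∑ i, |k x i - k x' i| ^ p ≤ A * (∑ i, |(x i : ℝ) - x' i|) / M + 1)
    (h3 : ∀ x x' : Fin n → ℕ, (∀ i, x' i ≤ M) → (∀ i, x i ≤ x' i ∧ x' i ≤ x i + 1) →
      ∀ i, |k x i - k x' i| ≤ 1 / (16 * q)) : False := by
  classical
  have hqpos : 0 < q := by rw [hq]; exact Nat.pow_pos hQ
  have hqR : (1 : ℝ) ≤ q := by exact_mod_cast hqpos
  have hMpos : 0 < M := by omega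
  have hMR : (0 : ℝ) < M := by exact_mod_cast hMpos
  have hmR : (1 : ℝ) ≤ m := by exact_mod_cast hm1
  set η' : ℝ := 1 / (16 * q) + 1 / M with hη'
  have hη1 : η' ≤ 1 / (8 * q) := by
    have h16 : (16 * q : ℝ) ≤ M := by exact_mod_cast hM
    have : (1 : ℝ) / M ≤ 1 / (16 * q) := one_div_le_one_div_of_le (by positivity) h16
    have e : (1 : ℝ) / (8 * q) = 1 / (16 * q) + 1 / (16 * q) := by
      field_simp; norm_num
    rw [hη', e]
    linarith
  have hη8 : η' ≤ 1 / 8 := by
    refine hη1.trans ?_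
    apply one_div_le_one_div_of_le (by norm_num)
    linarith
  set T : (Fin n → Fin q) → Fin n → ℝ := fun y i => 1 / 4 + (y i : ℕ) / (2 * q) with hT
  have hTb : ∀ y i, 1 / 4 ≤ T y i ∧ T y i ≤ 3 / 4 := by
    intro y i
    simp only [hT]
    have h1 : ((y i : ℕ) : ℝ) ≤ q := by exact_mod_cast (y i).2.le
    have h2 : (0 : ℝ) ≤ ((y i : ℕ) : ℝ) / (2 * q) := by positivity
    have h3 : ((y i : ℕ) : ℝ) / (2 * q) ≤ 1 / 2 := by
      rw [div_le_div_iff₀ (by positivity) (by norm_num)]
      linarith
    constructor <;> linarith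
  have hTsep : ∀ y y' i, y i ≠ y' i → 1 / (2 * q) ≤ |T y i - T y' i| := by
    intro y y' i hne
    simp only [hT]
    have e : (1 / 4 + ((y i : ℕ) : ℝ) / (2 * q)) - (1 / 4 + ((y' i : ℕ) : ℝ) / (2 * q))
        = (((y i : ℕ) : ℝ) - ((y' i : ℕ) : ℝ)) / (2 * q) := by ring
    rw [e, abs_div, abs_of_pos (show (0 : ℝ) < 2 * q by positivity)]
    apply div_le_div_of_nonneg_right _ (by positivity)
    have hne' : ((y i : ℕ) : ℤ) - ((y' i : ℕ) : ℤ) ≠ 0 := by
      intro h
      apply hne
      apply Fin.ext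
      omega
    have := Int.one_le_abs hne'
    exact_mod_cast this
  -- choose the points
  have hgeo := fun y => geo n M hMpos (1 / (16 * q)) k h3 (T y) (fun i =>
    ⟨by linarith [(hTb y i).1], by linarith [(hTb y i).2]⟩)
  choose ζ hζM hζ using hgeo
  set J : (Fin n → Fin q) → Finset (Fin n) := fun y =>
    Finset.univ.filter (fun i => |clip (k (ζ y) i) - T y i| ≤ η') with hJ
  have hJmem : ∀ y i, i ∈ J y ↔ |clip (k (ζ y) i) - T y i| ≤ η' := by
    intro y i; simp [hJ]
  have hJn : ∀ y i, i ∉ J y → (ζ y i = 0 ∧ T y i - η' ≤ clip (k (ζ y) i)) ∨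
      (ζ y i = M ∧ clip (k (ζ y) i) ≤ T y i + η') := by
    intro y i hi
    rw [hJmem] at hi
    rcases hζ y i with h | h
    · exact absurd h hi
    · exact h
  -- `J` is large
  have hJlarge : ∀ y, b ≤ #(J y) := by
    intro y
    set v : Fin n → ℕ := fun i => if ζ y i = M then M else 0 with hv
    have hv01 : ∀ i, v i = 0 ∨ v i = M := by
      intro i
      simp only [hv]
      split_ifs
      · right; rfl
      · left; rfl
    have hvM : ∀ i, v i ≤ M := by
      intro i
      rcases hv01 i with h | h <;> omega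
    have hkv := h1 v hv01
    have hh2 := h2 (ζ y) v (hζM y) hvM
    have hsum1 : ∑ i, |(ζ y i : ℝ) - v i| ≤ #(J y) * M := by
      have hle : ∀ i ∈ (Finset.univ : Finset (Fin n)), |(ζ y i : ℝ) - v i|
          ≤ if i ∈ J y then (M : ℝ) else 0 := by
        intro i _
        by_cases hi : i ∈ J y
        · rw [if_pos hi]
          have ha : (ζ y i : ℝ) ≤ M := by exact_mod_cast hζM y i
          have hb : (v i : ℝ) ≤ M := by exact_mod_cast hvM i
          have ha0 : (0 : ℝ) ≤ ζ y i := by positivity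
          have hb0 : (0 : ℝ) ≤ v i := by positivity
          rw [abs_le]
          constructor <;> linarith
        · rw [if_neg hi]
          have hvi : v i = ζ y i := by
            rcases hJn y i hi with h | h
            · simp only [hv, h.1]
              rw [if_neg (by omega)]
            · simp only [hv, h.1]
              simp
          rw [hvi]
          simp
      refine (Finset.sum_le_sum hle).trans (le_of_eq ?_)
      rw [Finset.sum_ite_mem, Finset.univ_inter, Finset.sum_const, nsmul_eq_mul]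
    have hsum2 : ((n : ℝ) - #(J y)) * (1 / 8) ≤ ∑ i, |k (ζ y) i - k v i| ^ p := by
      have hle : ∀ i ∈ (Finset.univ : Finset (Fin n)), (if i ∈ J y then (0 : ℝ) else 1 / 8)
          ≤ |k (ζ y) i - k v i| ^ p := by
        intro i _
        by_cases hi : i ∈ J y
        · rw [if_pos hi]
          positivity
        · rw [if_neg hi]
          have hd : 1 / 8 ≤ |k (ζ y) i - k v i| := by
            refine le_trans ?_ (clip_lip _ _)
            rcases hJn y i hi with h | h
            · have hv0 : v i = 0 := by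
                simp only [hv]
                rw [if_neg (by omega)]
              rw [hkv i, if_neg (by omega), clip_zero, sub_zero]
              refine le_trans ?_ (le_abs_self _)
              linarith [(hTb y i).1]
            · have hv0 : v i = M := by
                simp only [hv]
                rw [if_pos h.1]
              rw [hkv i, if_pos hv0, clip_one, abs_sub_comm]
              refine le_trans ?_ (le_abs_self _)
              linarith [(hTb y i).2]
          calc (1 / 8 : ℝ) = (1 / 8 : ℝ) ^ (1 : ℝ) := by rw [Real.rpow_one]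
            _ ≤ (1 / 8 : ℝ) ^ p :=
              Real.rpow_le_rpow_of_exponent_ge (by norm_num) (by norm_num) hp1
            _ ≤ |k (ζ y) i - k v i| ^ p := Real.rpow_le_rpow (by norm_num) hd hp0.le
      refine le_trans (le_of_eq ?_) (Finset.sum_le_sum hle)
      have e1 : ∀ i, (if i ∈ J y then (0 : ℝ) else 1 / 8) = 1 / 8 - if i ∈ J y then 1 / 8 else 0 := by
        intro i
        split_ifs <;> ring
      simp only [e1]
      rw [Finset.sum_sub_distrib, Finset.sum_ite_mem, Finset.univ_inter, Finset.sum_const,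
        Finset.sum_const, nsmul_eq_mul, nsmul_eq_mul, Finset.card_univ, Fintype.card_fin]
      ring
    have hJR : ((n : ℝ) - #(J y)) * (1 / 8) ≤ A * #(J y) + 1 := by
      refine hsum2.trans (hh2.trans ?_)
      have : A * (∑ i, |(ζ y i : ℝ) - v i|) / M ≤ A * #(J y) := by
        rw [div_le_iff₀ hMR]
        calc A * (∑ i, |(ζ y i : ℝ) - v i|) ≤ A * (#(J y) * M) :=
              mul_le_mul_of_nonneg_left hsum1 (by linarith)
          _ = A * #(J y) * M := by ring
      linarith
    -- conclude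
    have hnR : (n : ℝ) = t * b := by rw [hn]; push_cast; ring
    have hbR : (16 : ℝ) ≤ b := by exact_mod_cast hb16
    have hstep : (8 * A + 1) * (b : ℝ) ≤ (8 * A + 1) * #(J y) := by
      have : (n : ℝ) - 8 ≤ (8 * A + 1) * #(J y) := by linarith
      have h5 : 2 * (8 * A + 1) * b ≤ n := by
        rw [hnR]
        exact mul_le_mul_of_nonneg_right ht (by linarith)
      have h6 : (8 : ℝ) ≤ (8 * A + 1) * b := by nlinarith
      linarith
    have hfin : (b : ℝ) ≤ #(J y) := le_of_mul_le_mul_left hstep (by linarith)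
    exact_mod_cast hfin
  -- the patterns
  have hmlt : ∀ y i, ζ y i * m / M < m + 1 := by
    intro y i
    rw [Nat.div_lt_iff_lt_mul hMpos]
    have := hζM y i
    nlinarith
  set a : (Fin n → Fin q) → Fin n → Fin (m + 1) := fun y i => ⟨ζ y i * m / M, hmlt y i⟩ with ha
  have haeq : ∀ y y' i, a y i = a y' i → |(ζ y i : ℝ) - ζ y' i| ≤ M / m := by
    intro y y' i h
    have h' : ζ y i * m / M = ζ y' i * m / M := congrArg Fin.val h
    have hmul : |(ζ y i : ℝ) - ζ y' i| * m = |((ζ y i : ℝ) - ζ y' i) * m| := by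
      rw [abs_mul, abs_of_pos (show (0 : ℝ) < m by linarith)]
    rw [le_div_iff₀ (by linarith), hmul]
    have e1 := Nat.div_mul_le_self (ζ y i * m) M
    have e2 := Nat.div_mul_le_self (ζ y' i * m) M
    have e3 := Nat.lt_div_mul_add hMpos (a := ζ y i * m)
    have e4 := Nat.lt_div_mul_add hMpos (a := ζ y' i * m)
    rw [← h'] at e2 e4
    set d := ζ y i * m / M * M with hd
    have f1 : ζ y i * m ≤ ζ y' i * m + M := by omega
    have f2 : ζ y' i * m ≤ ζ y i * m + M := by omega
    have f1' : (ζ y i : ℝ) * m ≤ ζ y' i * m + M := by exact_mod_cast f1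
    have f2' : (ζ y' i : ℝ) * m ≤ ζ y i * m + M := by exact_mod_cast f2
    rw [abs_le]
    constructor <;> linarith
  have hcount := count n m Q r b q hr hQ hq J a (by
      intro y i hi
      rcases hJn y i hi with h | h
      · left
        apply Fin.ext
        simp [ha, h.1]
      · right
        apply Fin.ext
        simp only [ha, h.1, Fin.val_last]
        exact Nat.mul_div_cancel_left m hMpos) (by
      intro y y' hJJ haa
      have hh2 := h2 (ζ y) (ζ y') (hζM y) (hζM y')
      have hsum1 : ∑ i, |(ζ y i : ℝ) - ζ y' i| ≤ #(J y) * (M / m) := by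
        have hle : ∀ i ∈ (Finset.univ : Finset (Fin n)), |(ζ y i : ℝ) - ζ y' i|
            ≤ if i ∈ J y then ((M : ℝ) / m) else 0 := by
          intro i _
          by_cases hi : i ∈ J y
          · rw [if_pos hi]
            exact haeq y y' i (congrFun haa i)
          · rw [if_neg hi]
            have hi' : i ∉ J y' := hJJ ▸ hi
            have hval : ζ y i * m / M = ζ y' i * m / M := congrArg Fin.val (congrFun haa i)
            have hMm : M * m / M = m := Nat.mul_div_cancel_left m hMpos
            have heq : ζ y i = ζ y' i := by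
              rcases hJn y i hi with h | h <;> rcases hJn y' i hi' with h' | h'
              · rw [h.1, h'.1]
              · rw [h.1, h'.1, hMm, Nat.zero_mul, Nat.zero_div] at hval
                omega
              · rw [h.1, h'.1, hMm, Nat.zero_mul, Nat.zero_div] at hval
                omega
              · rw [h.1, h'.1]
            rw [heq]
            simp
        refine (Finset.sum_le_sum hle).trans (le_of_eq ?_)
        rw [Finset.sum_ite_mem, Finset.univ_inter, Finset.sum_const, nsmul_eq_mul]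
      set D := (J y).filter (fun i => y i ≠ y' i) with hD
      have hsum2 : (#D : ℝ) * (1 / (4 * q)) ^ p ≤ ∑ i, |k (ζ y) i - k (ζ y') i| ^ p := by
        calc (#D : ℝ) * (1 / (4 * q)) ^ p = ∑ i ∈ D, (1 / (4 * q) : ℝ) ^ p := by
              rw [Finset.sum_const, nsmul_eq_mul]
          _ ≤ ∑ i ∈ D, |k (ζ y) i - k (ζ y') i| ^ p := by
              refine Finset.sum_le_sum (fun i hi => ?_)
              rw [hD, Finset.mem_filter] at hi
              refine Real.rpow_le_rpow (by positivity) ?_ hp0.le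
              refine le_trans ?_ (clip_lip _ _)
              have g1 := (hJmem y i).1 hi.1
              have g2 := (hJmem y' i).1 (hJJ ▸ hi.1)
              have g3 := hTsep y y' i hi.2
              have e : T y i - T y' i = (clip (k (ζ y) i) - clip (k (ζ y') i))
                  - (clip (k (ζ y) i) - T y i) + (clip (k (ζ y') i) - T y' i) := by ring
              rw [e] at g3
              have g4 := abs_add_le ((clip (k (ζ y) i) - clip (k (ζ y') i))
                  - (clip (k (ζ y) i) - T y i)) (clip (k (ζ y') i) - T y' i)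
              have g5 := abs_sub (clip (k (ζ y) i) - clip (k (ζ y') i))
                  (clip (k (ζ y) i) - T y i)
              have e6 : (1 : ℝ) / (2 * q) = 1 / (4 * q) + 1 / (8 * q) + 1 / (8 * q) := by
                field_simp; norm_num
              rw [e6] at g3
              linarith
          _ ≤ ∑ i, |k (ζ y) i - k (ζ y') i| ^ p := by
              refine Finset.sum_le_sum_of_subset_of_nonneg (Finset.subset_univ _) ?_
              intro i _ _
              positivity
      have hJb : (b : ℝ) ≤ #(J y) := by exact_mod_cast hJlarge y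
      have hbmR : (m : ℝ) ≤ b := by exact_mod_cast hbm
      have hkey : (#D : ℝ) * (1 / (4 * q)) ^ p ≤ 2 * A * #(J y) / m := by
        refine hsum2.trans (hh2.trans ?_)
        have e1 : A * (∑ i, |(ζ y i : ℝ) - ζ y' i|) / M ≤ A * #(J y) / m := by
          rw [div_le_div_iff₀ hMR (by linarith)]
          have : A * (∑ i, |(ζ y i : ℝ) - ζ y' i|) * m ≤ A * (#(J y) * (M / m)) * m :=
            mul_le_mul_of_nonneg_right (mul_le_mul_of_nonneg_left hsum1 (by linarith))
              (by linarith)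
          refine this.trans (le_of_eq ?_)
          field_simp
        have e2 : (1 : ℝ) ≤ A * #(J y) / m := by
          rw [le_div_iff₀ (by linarith), one_mul]
          nlinarith
        have e3 : 2 * A * #(J y) / m = A * #(J y) / m + A * #(J y) / m := by ring
        rw [e3]
        linarith
      have hP : (0 : ℝ) < (4 * q) ^ p := Real.rpow_pos_of_pos (by positivity) p
      have hinv : (1 / (4 * q) : ℝ) ^ p = 1 / (4 * q) ^ p := by
        rw [Real.div_rpow zero_le_one (by positivity), Real.one_rpow]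
      rw [hinv] at hkey
      have hm0 : (0 : ℝ) < m := by linarith
      have hkey2 : (#D : ℝ) * m ≤ 2 * A * #(J y) * (4 * q) ^ p := by
        rw [mul_one_div, div_le_div_iff₀ hP hm0] at hkey
        exact hkey
      have hkey3 : ((r * #D : ℕ) : ℝ) * m ≤ #(J y) * m := by
        push_cast
        have hr0 : (0 : ℝ) ≤ r := by positivity
        calc (r : ℝ) * #D * m = r * (#D * m) := by ring
          _ ≤ r * (2 * A * #(J y) * (4 * q) ^ p) := mul_le_mul_of_nonneg_left hkey2 hr0
          _ = #(J y) * (2 * r * A * (4 * q) ^ p) := by ring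
          _ ≤ #(J y) * m := mul_le_mul_of_nonneg_left hm (by positivity)
      have hkey4 : ((r * #D : ℕ) : ℝ) ≤ #(J y) := le_of_mul_le_mul_right hkey3 hm0
      exact_mod_cast hkey4) hJlarge (by
      have h4 : 1 ≤ 4 ^ t := Nat.one_le_pow _ _ (by norm_num)
      nlinarith)
  have hlt : (4 ^ t * (m + 1)) ^ b < (Q ^ (r - 1)) ^ b :=
    Nat.pow_lt_pow_left hbig (by omega)
  rw [mul_pow, ← pow_mul, ← hn] at hlt
  omega

/-- The core statement: suitable parameters exist. -/
theorem core (p : ℝ) (hp0 : 0 < p) (hp1 : p < 1) (A : ℝ) (hA : 1 ≤ A) :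
    ∃ (n : ℕ) (η : ℝ) (M0 : ℕ), 0 < n ∧ 0 < η ∧ 0 < M0 ∧ ∀ M : ℕ, M0 ≤ M →
      ∀ k : (Fin n → ℕ) → Fin n → ℝ,
      (∀ v : Fin n → ℕ, (∀ i, v i = 0 ∨ v i = M) → ∀ i, k v i = if v i = M then 1 else 0) →
      (∀ x x' : Fin n → ℕ, (∀ i, x i ≤ M) → (∀ i, x' i ≤ M) →
        ∑ i, |k x i - k x' i| ^ p ≤ A * (∑ i, |(x i : ℝ) - x' i|) / M + 1) →
      (∀ x x' : Fin n → ℕ, (∀ i, x' i ≤ M) → (∀ i, x i ≤ x' i ∧ x' i ≤ x i + 1) →
        ∀ i, |k x i - k x' i| ≤ η) → False := by
  obtain ⟨r0, hr0⟩ := exists_nat_ge (2 / (1 - p))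
  set r : ℕ := r0 + 1 with hr
  have h1p : 0 < 1 - p := by linarith
  have hrp : 2 ≤ (r : ℝ) * (1 - p) := by
    have h1 : 2 / (1 - p) ≤ r := by
      rw [hr]; push_cast; linarith
    rwa [div_le_iff₀ h1p] at h1
  obtain ⟨t, ht⟩ := exists_nat_ge (2 * (8 * A + 1))
  obtain ⟨Q0, hQ0⟩ := exists_nat_ge ((4 : ℝ) ^ t * (8 * r * A + 2))
  set Q : ℕ := Q0 + 1 with hQ
  have hQ1 : 1 ≤ Q := by omega
  have hQR : (1 : ℝ) ≤ Q := by exact_mod_cast hQ1
  have hQR0 : (0 : ℝ) < Q := by linarith
  set q : ℕ := Q ^ r with hq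
  have hqpos : 0 < q := Nat.pow_pos hQ1
  have hqR : (1 : ℝ) ≤ q := by exact_mod_cast hqpos
  set m : ℕ := ⌈2 * r * A * (4 * q) ^ p⌉₊ with hm
  have hrR : (1 : ℝ) ≤ r := by rw [hr]; push_cast; linarith [(Nat.cast_nonneg r0 : (0 : ℝ) ≤ r0)]
  have hmle : 2 * r * A * (4 * q : ℝ) ^ p ≤ m := Nat.le_ceil _
  have hPpos : (1 : ℝ) ≤ (4 * q : ℝ) ^ p := Real.one_le_rpow (by linarith) hp0.le
  have hrA : (1 : ℝ) ≤ r * A := by nlinarith
  have hm2 : (1 : ℝ) ≤ m := by
    refine le_trans ?_ hmle
    have : (1 : ℝ) ≤ (r * A) * (4 * q : ℝ) ^ p := by nlinarith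
    nlinarith
  have hm1 : 1 ≤ m := by exact_mod_cast hm2
  have hmlt : (m : ℝ) < 2 * r * A * (4 * q : ℝ) ^ p + 1 := Nat.ceil_lt_add_one (by positivity)
  -- the size of `(4q)^p`
  have hqp : (4 * q : ℝ) ^ p ≤ 4 * (Q : ℝ) ^ (r * p) := by
    rw [Real.mul_rpow (by norm_num) (by linarith)]
    have e1 : (4 : ℝ) ^ p ≤ 4 := by
      calc (4 : ℝ) ^ p ≤ (4 : ℝ) ^ (1 : ℝ) :=
            Real.rpow_le_rpow_of_exponent_le (by norm_num) hp1.le
        _ = 4 := Real.rpow_one 4
    have e2 : (q : ℝ) ^ p = (Q : ℝ) ^ (r * p) := by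
      rw [hq]
      push_cast
      rw [← Real.rpow_natCast, ← Real.rpow_mul hQR0.le]
    rw [e2]
    exact mul_le_mul_of_nonneg_right e1 (by positivity)
  have hX1 : (1 : ℝ) ≤ (Q : ℝ) ^ (r * p) := Real.one_le_rpow hQR (by positivity)
  have hbigR : (4 : ℝ) ^ t * (m + 1) < (Q : ℝ) ^ (r - 1) := by
    have e1 : (m : ℝ) + 1 ≤ (8 * r * A + 2) * (Q : ℝ) ^ (r * p) := by
      have h5 : 2 * r * A * (4 * q : ℝ) ^ p ≤ 2 * r * A * (4 * (Q : ℝ) ^ (r * p)) :=
        mul_le_mul_of_nonneg_left hqp (by positivity)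
      have h6 : 2 * r * A * (4 * (Q : ℝ) ^ (r * p)) = 8 * r * A * (Q : ℝ) ^ (r * p) := by ring
      have h7 : (m : ℝ) + 1 ≤ 8 * r * A * (Q : ℝ) ^ (r * p) + 2 := by linarith
      nlinarith
    have e2 : (Q : ℝ) ^ (r - 1) = (Q : ℝ) ^ ((r : ℝ) - 1) := by
      rw [← Real.rpow_natCast]
      congr 1
      rw [hr]
      push_cast
      simp
    have e3 : (Q : ℝ) ^ (r * p) * Q ≤ (Q : ℝ) ^ ((r : ℝ) - 1) := by
      calc (Q : ℝ) ^ (r * p) * Q = (Q : ℝ) ^ (r * p) * (Q : ℝ) ^ (1 : ℝ) := by rw [Real.rpow_one]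
        _ = (Q : ℝ) ^ (r * p + 1) := by rw [Real.rpow_add hQR0]
        _ ≤ (Q : ℝ) ^ ((r : ℝ) - 1) := Real.rpow_le_rpow_of_exponent_le hQR (by nlinarith)
    have e4 : (4 : ℝ) ^ t * (8 * r * A + 2) < Q := by
      rw [hQ]; push_cast; linarith
    rw [e2]
    calc (4 : ℝ) ^ t * (m + 1) ≤ (4 : ℝ) ^ t * ((8 * r * A + 2) * (Q : ℝ) ^ (r * p)) :=
          mul_le_mul_of_nonneg_left e1 (by positivity)
      _ = (Q : ℝ) ^ (r * p) * ((4 : ℝ) ^ t * (8 * r * A + 2)) := by ring
      _ < (Q : ℝ) ^ (r * p) * Q := mul_lt_mul_of_pos_left e4 (by linarith)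
      _ ≤ (Q : ℝ) ^ ((r : ℝ) - 1) := e3
  have hbig : 4 ^ t * (m + 1) < Q ^ (r - 1) := by exact_mod_cast hbigR
  have htpos : 0 < t := by
    rcases Nat.eq_zero_or_pos t with h | h
    · rw [h] at ht
      push_cast at ht
      linarith
    · exact h
  refine ⟨t * (m + 16), 1 / (16 * q), 16 * q, by positivity, by positivity, by positivity, ?_⟩
  intro M hM k h1 h2 h3
  exact core_param p hp0 hp1.le A hA r t m Q q (m + 16) (t * (m + 16)) M (by omega) hQ1 hq ht hm1
    hmle hbig rfl (by omega) (by omega) hM k h1 h2 h3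

end W68deb0
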