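import Mathlib
import Pool.Agent.W_68deb0.Core

/-!
From a uniformly continuous retraction of a normed space onto a group with good coordinates to the
grid maps excluded by `core`.
-/

namespace W68deb0

open Finset

section Abstract

variable {X Y : Type*} [AddCommGroup X] [NormedAddCommGroup Y] [NormedSpace ℝ Y]

lemma add_sum_bound (f : X → Y) (L : ℝ) {n : ℕ} (b : Fin n → X)
    (hL : ∀ x i, ‖f (x + b i) - f x‖ ≤ L) (D : Finset (Fin n)) (c : X) :
    ‖f (c + ∑ i ∈ D, b i) - f c‖ ≤ L * #D := by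
  classical
  induction D using Finset.induction_on with
  | empty => simp
  | insert a D ha ih =>
    rw [Finset.sum_insert ha, Finset.card_insert_of_notMem ha]
    have e : c + (b a + ∑ i ∈ D, b i) = (c + ∑ i ∈ D, b i) + b a := by abel
    rw [e]
    have h1 := hL (c + ∑ i ∈ D, b i) a
    have h2 : f (c + ∑ i ∈ D, b i + b a) - f c
        = (f (c + ∑ i ∈ D, b i + b a) - f (c + ∑ i ∈ D, b i))
          + (f (c + ∑ i ∈ D, b i) - f c) := by abel
    rw [h2]
    refine (norm_add_le _ _).trans ?_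
    push_cast
    linarith

lemma two_sets (f : X → Y) (L : ℝ) {n : ℕ} (b : Fin n → X)
    (hL : ∀ x i, ‖f (x + b i) - f x‖ ≤ L) (S S' : Finset (Fin n)) :
    ‖f (∑ i ∈ S, b i) - f (∑ i ∈ S', b i)‖ ≤ L * (#(S \ S') + #(S' \ S)) := by
  classical
  have h1 := add_sum_bound f L b hL (S \ S') (∑ i ∈ S ∩ S', b i)
  have h2 := add_sum_bound f L b hL (S' \ S) (∑ i ∈ S ∩ S', b i)
  have e1 : ∑ i ∈ S ∩ S', b i + ∑ i ∈ S \ S', b i = ∑ i ∈ S, b i := by
    rw [← Finset.sum_union (Finset.disjoint_sdiff_inter S S').symm,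
      Finset.union_comm, Finset.sdiff_union_inter]
  have e2 : ∑ i ∈ S ∩ S', b i + ∑ i ∈ S' \ S, b i = ∑ i ∈ S', b i := by
    rw [Finset.inter_comm S S', ← Finset.sum_union (Finset.disjoint_sdiff_inter S' S).symm,
      Finset.union_comm, Finset.sdiff_union_inter]
  rw [e1] at h1
  rw [e2] at h2
  have h3 : f (∑ i ∈ S, b i) - f (∑ i ∈ S', b i)
      = (f (∑ i ∈ S, b i) - f (∑ i ∈ S ∩ S', b i))
        - (f (∑ i ∈ S', b i) - f (∑ i ∈ S ∩ S', b i)) := by abel
  rw [h3]
  refine (norm_sub_le _ _).trans ?_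
  linarith

/-- The level set. -/
def lev {n : ℕ} (x : Fin n → ℕ) (t : ℕ) : Finset (Fin n) := Finset.univ.filter (fun i => t < x i)

lemma lev_card {n : ℕ} (M : ℕ) (x x' : Fin n → ℕ) (hx : ∀ i, x i ≤ M) :
    ∑ t ∈ Finset.range M, #(lev x t \ lev x' t) = ∑ i, (x i - x' i) := by
  have h1 : ∀ t, #(lev x t \ lev x' t) = ∑ i : Fin n, if (x' i ≤ t ∧ t < x i) then 1 else 0 := by
    intro t
    rw [Finset.card_eq_sum_ones, ← Finset.sum_filter]
    refine Finset.sum_congr ?_ (fun _ _ => rfl)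
    ext i
    simp only [lev, Finset.mem_sdiff, Finset.mem_filter, Finset.mem_univ, true_and]
    omega
  simp only [h1]
  rw [Finset.sum_comm]
  refine Finset.sum_congr rfl (fun i _ => ?_)
  rw [← Finset.sum_filter, ← Finset.card_eq_sum_ones]
  have : (Finset.range M).filter (fun t => x' i ≤ t ∧ t < x i) = Finset.Ico (x' i) (x i) := by
    ext t
    have := hx i
    simp only [Finset.mem_filter, Finset.mem_range, Finset.mem_Ico]
    omega
  rw [this, Nat.card_Ico]

/-- The averaged extension of the cube map. -/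
noncomputable def F (f : X → Y) {n : ℕ} (b : Fin n → X) (M : ℕ) (x : Fin n → ℕ) : Y :=
  (1 / M : ℝ) • ∑ t ∈ Finset.range M, f (∑ i ∈ lev x t, b i)

lemma F_lip (f : X → Y) (L : ℝ) {n : ℕ} (b : Fin n → X)
    (hL : ∀ x i, ‖f (x + b i) - f x‖ ≤ L) (M : ℕ) (x x' : Fin n → ℕ)
    (hx : ∀ i, x i ≤ M) (hx' : ∀ i, x' i ≤ M) :
    ‖F f b M x - F f b M x'‖ ≤ L * (∑ i, |(x i : ℝ) - x' i|) / M := by
  unfold F
  rw [← smul_sub, ← Finset.sum_sub_distrib, norm_smul, Real.norm_eq_abs]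
  have hM0 : (0 : ℝ) ≤ 1 / (M : ℝ) := by positivity
  rw [abs_of_nonneg hM0]
  have h1 : ‖∑ t ∈ Finset.range M, (f (∑ i ∈ lev x t, b i) - f (∑ i ∈ lev x' t, b i))‖
      ≤ L * (∑ i, |(x i : ℝ) - x' i|) := by
    refine (norm_sum_le _ _).trans ?_
    have h2 : ∀ t ∈ Finset.range M, ‖f (∑ i ∈ lev x t, b i) - f (∑ i ∈ lev x' t, b i)‖
        ≤ L * (#(lev x t \ lev x' t) + #(lev x' t \ lev x t)) := by
      intro t _
      exact two_sets f L b hL (lev x t) (lev x' t)
    refine (Finset.sum_le_sum h2).trans (le_of_eq ?_)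
    rw [← Finset.mul_sum, Finset.sum_add_distrib]
    congr 1
    have e1 := lev_card M x x' hx
    have e2 := lev_card M x' x hx'
    have e1' : ∑ t ∈ Finset.range M, (#(lev x t \ lev x' t) : ℝ) = ∑ i, ((x i - x' i : ℕ) : ℝ) := by
      exact_mod_cast e1
    have e2' : ∑ t ∈ Finset.range M, (#(lev x' t \ lev x t) : ℝ) = ∑ i, ((x' i - x i : ℕ) : ℝ) := by
      exact_mod_cast e2
    rw [e1', e2', ← Finset.sum_add_distrib]
    refine Finset.sum_congr rfl (fun i _ => ?_)
    rcases le_total (x i) (x' i) with h | h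
    · have hR : (x i : ℝ) ≤ x' i := by exact_mod_cast h
      rw [Nat.sub_eq_zero_of_le h, Nat.cast_sub h, abs_of_nonpos (by linarith)]
      push_cast
      ring
    · have hR : (x' i : ℝ) ≤ x i := by exact_mod_cast h
      rw [Nat.sub_eq_zero_of_le h, Nat.cast_sub h, abs_of_nonneg (by linarith)]
      push_cast
      ring
  calc 1 / (M : ℝ) * ‖∑ t ∈ Finset.range M, (f (∑ i ∈ lev x t, b i) - f (∑ i ∈ lev x' t, b i))‖
      ≤ 1 / (M : ℝ) * (L * (∑ i, |(x i : ℝ) - x' i|)) := mul_le_mul_of_nonneg_left h1 hM0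
    _ = L * (∑ i, |(x i : ℝ) - x' i|) / M := by ring

lemma F_vertex (f : X → Y) {n : ℕ} (b : Fin n → X) (M : ℕ) (hM : 0 < M) (v : Fin n → ℕ)
    (hv : ∀ i, v i = 0 ∨ v i = M) :
    F f b M v = f (∑ i ∈ Finset.univ.filter (fun i => v i = M), b i) := by
  unfold F
  have h1 : ∀ t ∈ Finset.range M, f (∑ i ∈ lev v t, b i)
      = f (∑ i ∈ Finset.univ.filter (fun i => v i = M), b i) := by
    intro t ht
    rw [Finset.mem_range] at ht
    have : lev v t = Finset.univ.filter (fun i => v i = M) := by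
      ext i
      simp only [lev, Finset.mem_filter, Finset.mem_univ, true_and]
      rcases hv i with h | h
      · rw [h]; omega
      · rw [h]; omega
    rw [this]
  rw [Finset.sum_congr rfl h1, Finset.sum_const, Finset.card_range, ← Nat.cast_smul_eq_nsmul ℝ,
    smul_smul]
  have hMR : (M : ℝ) ≠ 0 := by exact_mod_cast hM.ne'
  rw [one_div, inv_mul_cancel₀ hMR, one_smul]

lemma chain (p : ℝ) (hp0 : 0 < p) (hp1 : p ≤ 1) (g : Y → X) {n : ℕ} (P : Fin n → X →+ ℝ)
    (η0 : ℝ) (hη0 : 0 < η0)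
    (hg : ∀ u v : Y, ‖u - v‖ ≤ η0 → ∑ i, |P i (g u - g v)| ^ p ≤ 1) (u v : Y) :
    ∑ i, |P i (g u - g v)| ^ p ≤ ‖u - v‖ / η0 + 1 := by
  set N : ℕ := ⌊‖u - v‖ / η0⌋₊ + 1 with hN
  have hNpos : (0 : ℝ) < N := by rw [hN]; positivity
  set w : ℕ → Y := fun j => v + ((j : ℝ) / N) • (u - v) with hw
  have hstep : ∀ j, ‖w (j + 1) - w j‖ ≤ η0 := by
    intro j
    have e : w (j + 1) - w j = (1 / (N : ℝ)) • (u - v) := by
      simp only [hw]
      rw [add_sub_add_left_eq_sub, ← sub_smul]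
      congr 1
      push_cast
      ring
    rw [e, norm_smul, Real.norm_eq_abs, abs_of_pos (by positivity)]
    have h1 : ‖u - v‖ / η0 < N := by
      rw [hN]; push_cast
      exact Nat.lt_floor_add_one _
    rw [div_lt_iff₀ hη0] at h1
    rw [one_div, inv_mul_le_iff₀ hNpos]
    linarith
  have hind : ∀ j : ℕ, ∑ i, |P i (g (w j) - g (w 0))| ^ p ≤ j := by
    intro j
    induction j with
    | zero =>
      simp only [sub_self, map_zero, abs_zero]
      rw [Real.zero_rpow hp0.ne']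
      simp
    | succ j ih =>
      have h1 := hg (w (j + 1)) (w j) (hstep j)
      have h2 : ∑ i, |P i (g (w (j + 1)) - g (w 0))| ^ p
          ≤ ∑ i, |P i (g (w (j + 1)) - g (w j))| ^ p + ∑ i, |P i (g (w j) - g (w 0))| ^ p := by
        rw [← Finset.sum_add_distrib]
        refine Finset.sum_le_sum (fun i _ => ?_)
        have e : P i (g (w (j + 1)) - g (w 0))
            = P i (g (w (j + 1)) - g (w j)) + P i (g (w j) - g (w 0)) := by
          rw [← map_add]
          congr 1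
          abel
        rw [e]
        calc |P i (g (w (j + 1)) - g (w j)) + P i (g (w j) - g (w 0))| ^ p
            ≤ (|P i (g (w (j + 1)) - g (w j))| + |P i (g (w j) - g (w 0))|) ^ p :=
              Real.rpow_le_rpow (abs_nonneg _) (abs_add_le _ _) hp0.le
          _ ≤ _ := Real.rpow_add_le_add_rpow (abs_nonneg _) (abs_nonneg _) hp0.le hp1
      push_cast
      linarith
  have hw0 : w 0 = v := by simp [hw]
  have hwN : w N = u := by
    simp only [hw]
    rw [div_self hNpos.ne', one_smul]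
    abel
  have := hind N
  rw [hw0, hwN] at this
  refine this.trans ?_
  rw [hN]
  push_cast
  have h3 : (⌊‖u - v‖ / η0⌋₊ : ℝ) ≤ ‖u - v‖ / η0 := Nat.floor_le (by positivity)
  linarith

/-- **Abstract form.** -/
theorem abstract_core (p : ℝ) (hp0 : 0 < p) (hp1 : p < 1) (f : X → Y) (g : Y → X)
    (hgf : ∀ x, g (f x) = x) (L η0 : ℝ) (hL0 : 0 ≤ L) (hη0 : 0 < η0)
    (hX : ∀ n : ℕ, ∃ (b : Fin n → X) (P : Fin n → X →+ ℝ),
      (∀ i j, P i (b j) = if j = i then 1 else 0) ∧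
      (∀ x i, ‖f (x + b i) - f x‖ ≤ L) ∧
      (∀ u v : Y, ‖u - v‖ ≤ η0 → ∑ i, |P i (g u - g v)| ^ p ≤ 1) ∧
      (∀ η : ℝ, 0 < η → ∃ κ : ℝ, 0 < κ ∧ ∀ u v : Y, ‖u - v‖ ≤ κ → ∀ i, |P i (g u - g v)| ≤ η)) :
    False := by
  classical
  set A : ℝ := max 1 (L / η0) with hA
  have hA1 : 1 ≤ A := le_max_left _ _
  obtain ⟨n, η, M0, hn, hη, hM0, hcore⟩ := core p hp0 hp1 A hA1
  obtain ⟨b, P, hPb, hL, hg, hsmall⟩ := hX n
  obtain ⟨κ, hκ, hκs⟩ := hsmall η hη
  obtain ⟨M1, hM1⟩ := exists_nat_ge (n * L / κ)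
  set M : ℕ := max M0 M1 with hM
  have hMpos : 0 < M := lt_of_lt_of_le hM0 (le_max_left _ _)
  have hMR : (0 : ℝ) < M := by exact_mod_cast hMpos
  have hMbig : n * L / κ ≤ M := by
    refine hM1.trans ?_
    exact_mod_cast le_max_right _ _
  refine hcore M (le_max_left _ _) (fun x i => P i (g (F f b M x))) ?_ ?_ ?_
  · intro v hv i
    rw [F_vertex f b M hMpos v hv, hgf, map_sum, Finset.sum_congr rfl (fun j _ => hPb i j)]
    rw [Finset.sum_ite_eq']
    simp
  · intro x x' hx hx'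
    have h1 := chain p hp0 hp1.le g P η0 hη0 hg (F f b M x) (F f b M x')
    have h2 := F_lip f L b hL M x x' hx hx'
    have e1 : ∀ i, |P i (g (F f b M x)) - P i (g (F f b M x'))| ^ p
        = |P i (g (F f b M x) - g (F f b M x'))| ^ p := by
      intro i
      rw [map_sub]
    simp only [e1]
    refine h1.trans ?_
    have h3 : ‖F f b M x - F f b M x'‖ / η0 ≤ A * (∑ i, |(x i : ℝ) - x' i|) / M := by
      rw [div_le_iff₀ hη0]
      refine h2.trans ?_
      have hLA : L ≤ A * η0 := by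
        have : L / η0 ≤ A := le_max_right _ _
        rwa [div_le_iff₀ hη0] at this
      have hS : (0 : ℝ) ≤ ∑ i, |(x i : ℝ) - x' i| := Finset.sum_nonneg (fun _ _ => abs_nonneg _)
      calc L * (∑ i, |(x i : ℝ) - x' i|) / M ≤ (A * η0) * (∑ i, |(x i : ℝ) - x' i|) / M :=
            div_le_div_of_nonneg_right (mul_le_mul_of_nonneg_right hLA hS) hMR.le
        _ = A * (∑ i, |(x i : ℝ) - x' i|) / M * η0 := by ring
    linarith
  · intro x x' hx' hxx i
    rw [← map_sub]
    refine hκs _ _ ?_ i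
    have hx : ∀ i, x i ≤ M := fun i => (hxx i).1.trans (hx' i)
    refine (F_lip f L b hL M x x' hx hx').trans ?_
    have hS : ∑ i, |(x i : ℝ) - x' i| ≤ n := by
      have : ∀ i ∈ (Finset.univ : Finset (Fin n)), |(x i : ℝ) - x' i| ≤ 1 := by
        intro i _
        have h1 : (x i : ℝ) ≤ x' i := by exact_mod_cast (hxx i).1
        have h2 : (x' i : ℝ) ≤ x i + 1 := by exact_mod_cast (hxx i).2
        rw [abs_le]
        constructor <;> linarith
      refine (Finset.sum_le_sum this).trans (le_of_eq ?_)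
      simp
    rw [div_le_iff₀ hMR]
    rw [div_le_iff₀ hκ] at hMbig
    calc L * (∑ i, |(x i : ℝ) - x' i|) ≤ L * n := mul_le_mul_of_nonneg_left hS hL0
      _ = n * L := by ring
      _ ≤ M * κ := hMbig
      _ = κ * M := by ring

end Abstract

end W68deb0
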