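import Mathlib
import Pool.Agent.W_68deb0.Abstract

/-!
A real topological vector space with uniformly complemented copies of `ℓ_p^n` for a fixed
`0 < p < 1` (for example `ℓ_p`, or any space with a quotient isomorphic to `ℓ_p`) is not a uniform
retract of a normed space; in particular it is not uniformly homeomorphic to a Banach space.
-/

open scoped Topology Pointwise

universe u v

namespace W68deb0.UniformRetract

theorem uniformRetract :
    ∀ (p : ℝ), 0 < p → p < 1 →
    ∀ (X : Type u) [AddCommGroup X] [Module ℝ X] [UniformSpace X] [IsUniformAddGroup X]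
      [ContinuousSMul ℝ X] (Y : Type v) [NormedAddCommGroup Y] [NormedSpace ℝ Y] (B U : Set X),
      Bornology.IsVonNBounded ℝ B → U ∈ 𝓝 (0 : X) →
      (∀ n : ℕ, ∃ (b : Fin n → X) (P : X →ₗ[ℝ] (Fin n → ℝ)),
        (∀ i, b i ∈ B) ∧ (∀ i, P (b i) = Pi.single i 1) ∧ ∀ u ∈ U, ∑ i, |P u i| ^ p ≤ 1) →
      ¬ ∃ (f : X → Y) (g : Y → X), UniformContinuous f ∧ UniformContinuous g ∧
        ∀ x, g (f x) = x := by
  intro p hp0 hp1 X _ _ _ _ _ Y _ _ B U hB hU hX
  rintro ⟨f, g, hf, hg, hgf⟩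
  -- large-scale Lipschitz bound for `f`
  obtain ⟨V, hV, hVf⟩ : ∃ V ∈ 𝓝 (0 : X), ∀ x y : X, y - x ∈ V → ‖f y - f x‖ ≤ 1 := by
    have h1 := uniformContinuous_def.1 hf _ (Metric.dist_mem_uniformity (one_pos))
    rw [uniformity_eq_comap_nhds_zero X, Filter.mem_comap] at h1
    obtain ⟨V, hV, hsub⟩ := h1
    refine ⟨V, hV, fun x y hxy => ?_⟩
    have h2 : (x, y) ∈ (fun x : X × X => x.2 - x.1) ⁻¹' V := hxy
    have h3 := hsub h2
    have h4 : dist (f x) (f y) < 1 := h3
    rw [dist_comm, dist_eq_norm] at h4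
    exact h4.le
  obtain ⟨r, hr⟩ := absorbs_iff_norm.1 (hB hV)
  obtain ⟨N, hN⟩ := exists_nat_ge (max r 1)
  have hNr : r ≤ ‖(N : ℝ)‖ := by
    rw [Real.norm_eq_abs, abs_of_nonneg (by positivity)]
    exact (le_max_left _ _).trans hN
  have hsubB := hr (N : ℝ) hNr
  have hL : ∀ x : X, ∀ c ∈ B, ‖f (x + c) - f x‖ ≤ N := by
    intro x c hc
    obtain ⟨w, hw, hwc⟩ := Set.mem_smul_set.1 (hsubB hc)
    have hind : ∀ j : ℕ, ‖f (x + (j : ℝ) • w) - f x‖ ≤ j := by
      intro j
      induction j with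
      | zero => simp
      | succ j ih =>
        have h1 : ‖f (x + ((j + 1 : ℕ) : ℝ) • w) - f (x + (j : ℝ) • w)‖ ≤ 1 := by
          apply hVf
          have : x + ((j + 1 : ℕ) : ℝ) • w - (x + (j : ℝ) • w) = w := by
            push_cast
            rw [add_smul, one_smul]
            abel
          rwa [this]
        have h2 : f (x + ((j + 1 : ℕ) : ℝ) • w) - f x
            = (f (x + ((j + 1 : ℕ) : ℝ) • w) - f (x + (j : ℝ) • w))
              + (f (x + (j : ℝ) • w) - f x) := by abel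
        rw [h2]
        refine (norm_add_le _ _).trans ?_
        push_cast at h1 ⊢
        linarith
    have := hind N
    rwa [hwc] at this
  -- continuity of `g`
  have hgU : ∀ W ∈ 𝓝 (0 : X), ∃ δ : ℝ, 0 < δ ∧ ∀ u v : Y, ‖u - v‖ ≤ δ → g u - g v ∈ W := by
    intro W hW
    have h1 : {q : X × X | q.2 - q.1 ∈ W} ∈ uniformity X := by
      rw [uniformity_eq_comap_nhds_zero X]
      exact ⟨W, hW, fun q hq => hq⟩
    have h2 := uniformContinuous_def.1 hg _ h1
    obtain ⟨ε, hε, h3⟩ := Metric.mem_uniformity_dist.1 h2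
    refine ⟨ε / 2, by positivity, fun u v huv => ?_⟩
    have h4 : dist v u < ε := by
      rw [dist_comm, dist_eq_norm]
      linarith
    exact h3 h4
  obtain ⟨η0, hη0, hg0⟩ := hgU U hU
  refine W68deb0.abstract_core p hp0 hp1 f g hgf N η0 (by positivity) hη0 ?_
  intro n
  obtain ⟨b, P, hbB, hPb, hPU⟩ := hX n
  refine ⟨b, fun i => (LinearMap.proj i ∘ₗ P).toAddMonoidHom, ?_, ?_, ?_, ?_⟩
  · intro i j
    have e : (LinearMap.proj i ∘ₗ P).toAddMonoidHom (b j) = P (b j) i := rfl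
    rw [e, hPb j, Pi.single_apply]
    by_cases h : i = j
    · rw [if_pos h, if_pos h.symm]
    · rw [if_neg h, if_neg (Ne.symm h)]
  · intro x i
    exact hL x (b i) (hbB i)
  · intro u v huv
    exact hPU _ (hg0 u v huv)
  · intro η hη
    have hW : η • U ∈ 𝓝 (0 : X) := (set_smul_mem_nhds_zero_iff hη.ne').2 hU
    obtain ⟨κ, hκ, hgκ⟩ := hgU _ hW
    refine ⟨κ, hκ, fun u v huv i => ?_⟩
    obtain ⟨w, hw, hwe⟩ := Set.mem_smul_set.1 (hgκ u v huv)
    have e : (LinearMap.proj i ∘ₗ P).toAddMonoidHom (g u - g v) = η * P w i := by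
      have : (LinearMap.proj i ∘ₗ P).toAddMonoidHom (g u - g v) = P (g u - g v) i := rfl
      rw [this, ← hwe, map_smul]
      rfl
    rw [e, abs_mul, abs_of_pos hη]
    have h1 : |P w i| ^ p ≤ 1 := by
      refine le_trans ?_ (hPU w hw)
      exact Finset.single_le_sum (f := fun i => |P w i| ^ p)
        (fun j _ => Real.rpow_nonneg (abs_nonneg _) p) (Finset.mem_univ i)
    have h2 : |P w i| ≤ 1 := by
      by_contra hcon
      push Not at hcon
      exact absurd h1 (not_le.2 (Real.one_lt_rpow hcon hp0))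
    calc η * |P w i| ≤ η * 1 := mul_le_mul_of_nonneg_left h2 hη.le
      _ = η := mul_one η

end W68deb0.UniformRetract
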